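import Mathlib

set_option autoImplicit false

/-!
# A complete relational theory that is `∃₂`-axiomatizable and has an unbounded type

The language has a binary relation symbol for each level `a : ℕ` (`E a x y`: `y` is a child of `x` at
level `a`). The theory `T` is the theory of a forest (every element has at most one parent, levels
decrease from parents to children) in which every finite forest occurs as a union of components.

* `T` is complete and axiomatized by the `∃₂`-sentences it contains: in a finite part of the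
  language all trees have bounded height, so up to any given quantifier rank every tree looks like a
  finite tree; two models are compared by a back and forth argument (`bf_of_mat`).
* A root of a tree having for each `n` children whose trees are of kind `K n (f n)` has an unbounded
  type: changing `f` at a large `n` does not change the `∀ₙ`-formulas true at the root
  (`alt_rt`, an alternating back and forth game), but changes its type (`realize_dist`).
-/

namespace Pool.Agent.Results.MP_ba14eb_lc.UnboundedType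

universe u v w

/-! ### Forests with levels -/

/-- `E a x y` : `y` is a child of `x` at level `a`. Every element has at most one parent and levels
decrease along a path from a parent to its descendants. -/
structure Forest {M : Type*} (E : ℕ → M → M → Prop) : Prop where
  par : ∀ a b x y z, E a x z → E b y z → x = y ∧ a = b
  lev : ∀ a b x y z, E a x y → E b y z → b < a

/-- Codes of the isomorphism types of finite trees with levels below `k`, counting up to `m`. -/
def Ty (m : ℕ) : ℕ → Type
  | 0 => Unit
  | k + 1 => Ty m k × (Ty m k → Fin (m + 1))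

theorem Ty.finite (m k : ℕ) : Finite (Ty m k) := by
  induction k with
  | zero => exact inferInstanceAs (Finite Unit)
  | succ k ih =>
    have := ih
    exact inferInstanceAs (Finite (Ty m k × (Ty m k → Fin (m + 1))))

/-- The number of elements of a set, counted up to `m`. -/
noncomputable def cap {X : Type*} (m : ℕ) (S : Set X) : Fin (m + 1) :=
  ⟨(min (m : ℕ∞) S.encard).toNat, by
    have h : (min (m : ℕ∞) S.encard) ≤ m := min_le_left _ _
    have := ENat.toNat_le_of_le_natCast h
    omega⟩

theorem cap_congr {X Y : Type*} (m : ℕ) {S : Set X} {S' : Set Y} (h : S.encard = S'.encard) :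
    cap m S = cap m S' := by
  unfold cap
  simp only [h]

theorem cap_eq_iff {X Y : Type*} (m : ℕ) {S : Set X} {S' : Set Y} (h : cap m S = cap m S') :
    min (m : ℕ∞) S.encard = min (m : ℕ∞) S'.encard := by
  unfold cap at h
  have h1 := congrArg Fin.val h
  simp only at h1
  have hS : (min (m : ℕ∞) S.encard) ≠ ⊤ :=
    ne_top_of_le_ne_top (ENat.natCast_ne_top m) (min_le_left _ _)
  have hS' : (min (m : ℕ∞) S'.encard) ≠ ⊤ :=
    ne_top_of_le_ne_top (ENat.natCast_ne_top m) (min_le_left _ _)
  rw [← ENat.natCast_toNat hS, ← ENat.natCast_toNat hS', h1]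

/-- The code of the tree of descendants of `x` at levels below `k`. -/
noncomputable def tau {M : Type*} (E : ℕ → M → M → Prop) (m : ℕ) : (k : ℕ) → M → Ty m k
  | 0, _ => ()
  | k + 1, x => (tau E m k x, fun s => cap m {y | E k x y ∧ tau E m k y = s})

theorem tau_mono {M N : Type*} {E : ℕ → M → M → Prop} {E' : ℕ → N → N → Prop} {m k : ℕ} {x : M}
    {y : N} (h : tau E m k x = tau E' m k y) {j : ℕ} (hj : j ≤ k) :
    tau E m j x = tau E' m j y := by
  induction k with
  | zero =>
    obtain rfl : j = 0 := by omega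
    rfl
  | succ k ih =>
    rcases Nat.lt_or_ge k j with hlt | hge
    · obtain rfl : j = k + 1 := by omega
      exact h
    · exact ih (congrArg Prod.fst h) hge

theorem tau_count {M N : Type*} {E : ℕ → M → M → Prop} {E' : ℕ → N → N → Prop} {m k : ℕ} {x : M}
    {y : N} (h : tau E m k x = tau E' m k y) {a : ℕ} (ha : a < k) (t : Ty m a) :
    min (m : ℕ∞) {z | E a x z ∧ tau E m a z = t}.encard =
      min (m : ℕ∞) {z | E' a y z ∧ tau E' m a z = t}.encard := by
  have h1 := tau_mono h (show a + 1 ≤ k from ha)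
  exact cap_eq_iff m (congrFun (congrArg Prod.snd h1) t)

theorem tau_extend {M N : Type*} {E : ℕ → M → M → Prop} {E' : ℕ → N → N → Prop} {m a k : ℕ} {x : M}
    {y : N} (hak : a ≤ k) (h : tau E m a x = tau E' m a y)
    (hx : ∀ b, a ≤ b → ∀ z, ¬ E b x z) (hy : ∀ b, a ≤ b → ∀ z, ¬ E' b y z) :
    tau E m k x = tau E' m k y := by
  induction k with
  | zero => rfl
  | succ k ih =>
    rcases Nat.lt_or_ge k a with hlt | hge
    · obtain rfl : a = k + 1 := by omega
      exact h
    · refine Prod.ext (ih hge) ?_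
      funext s
      apply cap_congr
      have h1 : {z | E k x z ∧ tau E m k z = s} = ∅ := by
        ext z
        simp [hx k hge z]
      have h2 : {z | E' k y z ∧ tau E' m k z = s} = ∅ := by
        ext z
        simp [hy k hge z]
      rw [h1, h2, Set.encard_empty, Set.encard_empty]

/-- The code of a tree is preserved by an injection whose image is closed under children. -/
theorem tau_emb {F N : Type*} {e : ℕ → F → F → Prop} {E : ℕ → N → N → Prop} (m : ℕ) (f : F → N)
    (hf : Function.Injective f) (k : ℕ)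
    (h : ∀ a < k, ∀ x z', E a (f x) z' ↔ ∃ z, f z = z' ∧ e a x z) (x : F) :
    tau E m k (f x) = tau e m k x := by
  induction k generalizing x with
  | zero => rfl
  | succ k ih =>
    have ih' := ih (fun a ha => h a (by omega))
    refine Prod.ext (ih' x) ?_
    funext s
    apply cap_congr
    have : {z | E k (f x) z ∧ tau E m k z = s} = f '' {z | e k x z ∧ tau e m k z = s} := by
      ext z
      simp only [Set.mem_ofPred_eq, Set.mem_image]
      constructor
      · rintro ⟨h1, h2⟩
        obtain ⟨z, rfl, hz⟩ := (h k (by omega) x z).1 h1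
        exact ⟨z, ⟨hz, by rw [← ih' z]; exact h2⟩, rfl⟩
      · rintro ⟨z, ⟨h1, h2⟩, rfl⟩
        exact ⟨(h k (by omega) x (f z)).2 ⟨z, rfl, h1⟩, by rw [ih' z]; exact h2⟩
    show {z | E k (f x) z ∧ tau E m k z = s}.encard = {z | e k x z ∧ tau e m k z = s}.encard
    rw [this]
    exact hf.encard_image _

/-- Every code is the code of a finite tree. -/
theorem exists_tree (m k : ℕ) (t : Ty m k) : ∃ (F : Type) (_ : Finite F)
    (e : ℕ → F → F → Prop) (r : F), Forest e ∧ (∀ a x y, e a x y → a < k) ∧
      (∀ a x, ¬ e a x r) ∧ tau e m k r = t := by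
  induction k with
  | zero =>
    refine ⟨Unit, inferInstance, fun _ _ _ => False, (), ⟨?_, ?_⟩, ?_, ?_, rfl⟩
    · intro a b x y z h
      exact h.elim
    · intro a b x y z h
      exact h.elim
    · intro a x y h
      exact h.elim
    · intro a x h
      exact h
  | succ k ih =>
    choose F hF e r hfor hlev hroot htau using ih
    obtain ⟨t', g⟩ := t
    have := Ty.finite m k
    let F' : Type := F t' ⊕ (Σ s : Ty m k, Fin (g s) × F s)
    let e' : ℕ → F' → F' → Prop := fun a p q =>
      match p, q with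
      | .inl x, .inl y => e t' a x y
      | .inl x, .inr q => a = k ∧ x = r t' ∧ q.2.2 = r q.1
      | .inr _, .inl _ => False
      | .inr p, .inr q => ∃ (s : Ty m k) (c : Fin (g s)) (x y : F s),
          p = ⟨s, c, x⟩ ∧ q = ⟨s, c, y⟩ ∧ e s a x y
    refine ⟨F', inferInstance, e', .inl (r t'), ⟨?_, ?_⟩, ?_, ?_, ?_⟩
    · rintro a b (x | p) (y | q) (z | s) h1 h2
      · have := (hfor t').par a b x y z h1 h2
        exact ⟨by rw [this.1], this.2⟩
      · obtain ⟨rfl, rfl, _⟩ := h1
        obtain ⟨rfl, rfl, _⟩ := h2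
        exact ⟨rfl, rfl⟩
      · exact h2.elim
      · obtain ⟨_, _, h3⟩ := h1
        obtain ⟨s', c, x', y', rfl, rfl, h4⟩ := h2
        simp only at h3
        rw [h3] at h4
        exact absurd h4 (hroot s' _ _)
      · exact h1.elim
      · obtain ⟨_, _, h3⟩ := h2
        obtain ⟨s', c, x', y', rfl, rfl, h4⟩ := h1
        simp only at h3
        rw [h3] at h4
        exact absurd h4 (hroot s' _ _)
      · exact h1.elim
      · obtain ⟨s1, c1, x1, y1, rfl, rfl, h3⟩ := h1
        obtain ⟨s2, c2, x2, y2, rfl, h, h4⟩ := h2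
        cases h
        have := (hfor s1).par a b x1 x2 y1 h3 h4
        exact ⟨by rw [this.1], this.2⟩
    · rintro a b (x | p) (y | q) (z | s) h1 h2
      · exact (hfor t').lev a b x y z h1 h2
      · obtain ⟨rfl, rfl, _⟩ := h2
        exact absurd h1 (hroot t' _ _)
      · exact h2.elim
      · obtain ⟨rfl, rfl, _⟩ := h1
        obtain ⟨s1, c1, x1, y1, rfl, rfl, h3⟩ := h2
        exact hlev s1 _ _ _ h3
      · exact h1.elim
      · exact h1.elim
      · exact h2.elim
      · obtain ⟨s1, c1, x1, y1, rfl, rfl, h3⟩ := h1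
        obtain ⟨s2, c2, x2, y2, h, rfl, h4⟩ := h2
        cases h
        exact (hfor s1).lev a b x1 y1 y2 h3 h4
    · rintro a (x | p) (y | q) h
      · exact (hlev t' _ _ _ h).trans (by omega)
      · obtain ⟨rfl, _, _⟩ := h
        omega
      · exact h.elim
      · obtain ⟨s1, c1, x1, y1, rfl, rfl, h3⟩ := h
        exact (hlev s1 _ _ _ h3).trans (by omega)
    · rintro a (x | p) h
      · exact hroot t' _ _ h
      · exact h
    · have hinl : ∀ x, tau e' m k (.inl x) = tau (e t') m k x := by
        intro x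
        refine tau_emb m (Sum.inl : F t' → F') Sum.inl_injective k ?_ x
        rintro a ha x (z | q)
        · constructor
          · intro h
            exact ⟨z, rfl, h⟩
          · rintro ⟨z', h, h'⟩
            cases h
            exact h'
        · constructor
          · rintro ⟨rfl, _⟩
            exact absurd ha (lt_irrefl _)
          · rintro ⟨z', h, _⟩
            cases h
      have hinr : ∀ (s : Ty m k) (c : Fin (g s)) (x : F s),
          tau e' m k (.inr ⟨s, c, x⟩) = tau (e s) m k x := by
        intro s c x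
        refine tau_emb m (fun x => (.inr ⟨s, c, x⟩ : F')) ?_ k ?_ x
        · intro x y h
          have h' := Sum.inr_injective h
          cases h'
          rfl
        · rintro a ha x (z | q)
          · constructor
            · intro h
              exact h.elim
            · rintro ⟨z', h, _⟩
              cases h
          · constructor
            · rintro ⟨s1, c1, x1, y1, h, rfl, h3⟩
              cases h
              exact ⟨y1, rfl, h3⟩
            · rintro ⟨z', h, h'⟩
              have h'' := Sum.inr_injective h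
              subst h''
              exact ⟨s, c, x, z', rfl, rfl, h'⟩
      refine Prod.ext ((hinl _).trans (htau t')) ?_
      funext s
      have hset : {z | e' k (.inl (r t')) z ∧ tau e' m k z = s} =
          (fun c : Fin (g s) => (.inr ⟨s, c, r s⟩ : F')) '' Set.univ := by
        ext z
        simp only [Set.mem_ofPred_eq, Set.mem_image, Set.mem_univ, true_and]
        constructor
        · rcases z with z | ⟨s', c, z⟩
          · rintro ⟨h, _⟩
            exact absurd (hlev t' _ _ _ h) (lt_irrefl _)
          · rintro ⟨⟨_, _, h⟩, h'⟩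
            simp only at h
            subst h
            rw [hinr, htau] at h'
            subst h'
            exact ⟨c, rfl⟩
        · rintro ⟨c, rfl⟩
          refine ⟨⟨rfl, rfl, rfl⟩, ?_⟩
          rw [hinr, htau]
      show cap m {z | e' k (.inl (r t')) z ∧ tau e' m k z = s} = g s
      rw [hset]
      unfold cap
      apply Fin.ext
      simp only
      rw [Function.Injective.encard_image]
      · have : (Set.univ : Set (Fin (g s))).encard = ((g s : ℕ) : ℕ∞) := by
          rw [Set.encard_univ]
          simp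
        rw [this]
        have h2 : ((g s : ℕ) : ℕ∞) ≤ m := by
          exact_mod_cast Nat.lt_succ_iff.1 (g s).2
        rw [min_eq_right h2]
        simp
      · intro c c' h
        have h' := Sum.inr_injective h
        simpa using h'


/-! ### Back and forth between two forests -/

/-- Every code is realized by infinitely many elements without parent at a level below `k`. -/
def Rich {M : Type*} (E : ℕ → M → M → Prop) (m k : ℕ) : Prop :=
  ∀ t : Ty m k, {y | (∀ a < k, ∀ z, ¬ E a z y) ∧ tau E m k y = t}.Infinite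

/-- `S` is (the graph of) a finite partial isomorphism for the levels below `k`, closed under
parents, preserving the codes of trees. -/
structure Mat {M N : Type*} (E : ℕ → M → M → Prop) (E' : ℕ → N → N → Prop) (m k : ℕ)
    (S : List (M × N)) : Prop where
  inj : ∀ x y x' y', (x, y) ∈ S → (x', y') ∈ S → (x = x' ↔ y = y')
  rel : ∀ a < k, ∀ x y x' y', (x, y) ∈ S → (x', y') ∈ S → (E a x x' ↔ E' a y y')
  clL : ∀ a < k, ∀ x y z, (x, y) ∈ S → E a z x → ∃ y', (z, y') ∈ S
  clR : ∀ a < k, ∀ x y z, (x, y) ∈ S → E' a z y → ∃ x', (x', z) ∈ S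
  ty : ∀ x y, (x, y) ∈ S → tau E m k x = tau E' m k y

section
variable {M N : Type*} {E : ℕ → M → M → Prop} {E' : ℕ → N → N → Prop} {m k : ℕ}

theorem mem_map_swap {S : List (M × N)} {x : M} {y : N} :
    (y, x) ∈ S.map Prod.swap ↔ (x, y) ∈ S := by
  simp only [List.mem_map, Prod.exists, Prod.swap_prod_mk, Prod.mk.injEq]
  constructor
  · rintro ⟨a, b, h, rfl, rfl⟩
    exact h
  · intro h
    exact ⟨x, y, h, rfl, rfl⟩

theorem Mat.swap {S : List (M × N)} (h : Mat E E' m k S) : Mat E' E m k (S.map Prod.swap) where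
  inj x y x' y' h1 h2 := (h.inj y x y' x' (mem_map_swap.1 h1) (mem_map_swap.1 h2)).symm
  rel a ha x y x' y' h1 h2 := (h.rel a ha y x y' x' (mem_map_swap.1 h1) (mem_map_swap.1 h2)).symm
  clL a ha x y z h1 h2 := by
    obtain ⟨x', hx'⟩ := h.clR a ha y x z (mem_map_swap.1 h1) h2
    exact ⟨x', mem_map_swap.2 hx'⟩
  clR a ha x y z h1 h2 := by
    obtain ⟨x', hx'⟩ := h.clL a ha y x z (mem_map_swap.1 h1) h2
    exact ⟨x', mem_map_swap.2 hx'⟩
  ty x y h1 := (h.ty y x (mem_map_swap.1 h1)).symm

theorem encard_ran (S : List (M × N)) (B : Set N) (hB : ∀ y ∈ B, ∃ x, (x, y) ∈ S) :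
    B.encard ≤ S.length := by
  classical
  have hsub : B ⊆ ((S.map Prod.snd).toFinset : Set N) := by
    intro y hy
    obtain ⟨x, hx⟩ := hB y hy
    simp only [Finset.mem_coe, List.mem_toFinset, List.mem_map]
    exact ⟨(x, y), hx, rfl⟩
  refine (Set.encard_le_encard hsub).trans ?_
  rw [Set.encard_coe_eq_coe_finsetCard]
  have h1 : (S.map Prod.snd).toFinset.card ≤ S.length := by
    have := List.toFinset_card_le (S.map Prod.snd)
    simpa using this
  exact_mod_cast h1

/-- Adding a root. -/
theorem Mat.addRoot (hR : Rich E' m k) {S : List (M × N)} (h : Mat E E' m k S) {x : M}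
    (hx : ∀ a < k, ∀ z, ¬ E a z x) (hxS : ∀ y, (x, y) ∉ S) : ∃ y, Mat E E' m k ((x, y) :: S) := by
  classical
  have hinf := hR (tau E m k x)
  have hfin : {y : N | ∃ x, (x, y) ∈ S}.Finite := by
    have : {y : N | ∃ x, (x, y) ∈ S} = ((S.map Prod.snd).toFinset : Set N) := by
      ext y
      simp
    rw [this]
    exact Finset.finite_toSet _
  obtain ⟨y, ⟨hy1, hy2⟩, hyS⟩ := (hinf.sdiff hfin).nonempty
  have hyS' : ∀ x, (x, y) ∉ S := fun x hx => hyS ⟨x, hx⟩
  refine ⟨y, ?_, ?_, ?_, ?_, ?_⟩
  · intro x1 y1 x2 y2 h1 h2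
    rw [List.mem_cons] at h1 h2
    rcases h1 with h1 | h1 <;> rcases h2 with h2 | h2
    · cases h1
      cases h2
      simp
    · cases h1
      constructor
      · rintro rfl
        exact absurd h2 (hxS _)
      · rintro rfl
        exact absurd h2 (hyS' _)
    · cases h2
      constructor
      · rintro rfl
        exact absurd h1 (hxS _)
      · rintro rfl
        exact absurd h1 (hyS' _)
    · exact h.inj _ _ _ _ h1 h2
  · intro a ha x1 y1 x2 y2 h1 h2
    rw [List.mem_cons] at h1 h2
    rcases h1 with h1 | h1 <;> rcases h2 with h2 | h2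
    · cases h1
      cases h2
      exact iff_of_false (hx a ha _) (hy1 a ha _)
    · cases h1
      refine iff_of_false ?_ ?_
      · intro hE
        obtain ⟨y', hy'⟩ := h.clL a ha _ _ _ h2 hE
        exact hxS _ hy'
      · intro hE
        obtain ⟨x', hx'⟩ := h.clR a ha _ _ _ h2 hE
        exact hyS' _ hx'
    · cases h2
      exact iff_of_false (hx a ha _) (hy1 a ha _)
    · exact h.rel a ha _ _ _ _ h1 h2
  · intro a ha x1 y1 z h1 hE
    rw [List.mem_cons] at h1
    rcases h1 with h1 | h1
    · cases h1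
      exact absurd hE (hx a ha _)
    · obtain ⟨y', hy'⟩ := h.clL a ha _ _ _ h1 hE
      exact ⟨y', List.mem_cons_of_mem _ hy'⟩
  · intro a ha x1 y1 z h1 hE
    rw [List.mem_cons] at h1
    rcases h1 with h1 | h1
    · cases h1
      exact absurd hE (hy1 a ha _)
    · obtain ⟨x', hx'⟩ := h.clR a ha _ _ _ h1 hE
      exact ⟨x', List.mem_cons_of_mem _ hx'⟩
  · intro x1 y1 h1
    rw [List.mem_cons] at h1
    rcases h1 with h1 | h1
    · cases h1
      exact hy2.symm
    · exact h.ty _ _ h1

/-- Adding a child. -/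
theorem Mat.addChild (hM : Forest E) (hN : Forest E') {S : List (M × N)} (h : Mat E E' m k S)
    (hlen : S.length + 1 ≤ m) {a : ℕ} (ha : a < k) {x x' : M} {y : N} (hxy : (x, y) ∈ S)
    (hx : E a x x') (hxS : ∀ y', (x', y') ∉ S) : ∃ y', Mat E E' m k ((x', y') :: S) := by
  classical
  -- find the partner
  obtain ⟨y', hy, hty, hyS⟩ : ∃ y', E' a y y' ∧ tau E m a x' = tau E' m a y' ∧
      ∀ x'', (x'', y') ∉ S := by
    by_contra hcon
    push Not at hcon
    set t := tau E m a x' with ht
    set Bx := {z | E a x z ∧ tau E m a z = t} with hBx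
    set By := {z | E' a y z ∧ tau E' m a z = t} with hBy
    have hmin : min (m : ℕ∞) Bx.encard = min (m : ℕ∞) By.encard := tau_count (h.ty x y hxy) ha t
    have hBy1 : ∀ z ∈ By, ∃ x'', (x'', z) ∈ S := fun z hz => hcon z hz.1 hz.2.symm
    have hBy2 : By.encard ≤ S.length := encard_ran S By hBy1
    have : Nonempty M := ⟨x⟩
    choose! f hf using hBy1
    have hinj : Set.InjOn f By := by
      intro z hz z' hz' hzz
      exact (h.inj _ _ _ _ (hf z hz) (hf z' hz')).1 hzz
    have himg : f '' By ⊆ Bx \ {x'} := by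
      rintro _ ⟨z, hz, rfl⟩
      refine ⟨⟨?_, ?_⟩, ?_⟩
      · exact (h.rel a ha _ _ _ _ hxy (hf z hz)).2 hz.1
      · have := tau_mono (h.ty _ _ (hf z hz)) ha.le
        rw [this]
        exact hz.2
      · intro hc
        rw [Set.mem_singleton_iff] at hc
        exact hxS z (hc ▸ hf z hz)
    have hx'B : x' ∈ Bx := ⟨hx, rfl⟩
    have h1 : By.encard + 1 ≤ Bx.encard := by
      rw [← hinj.encard_image, ← Set.encard_sdiff_singleton_add_one hx'B]
      exact add_le_add_left (Set.encard_le_encard himg) 1
    have h2 : By.encard < m := by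
      refine lt_of_le_of_lt hBy2 ?_
      exact_mod_cast (show S.length < m by omega)
    rw [min_eq_right h2.le] at hmin
    rcases le_total (m : ℕ∞) Bx.encard with h3 | h3
    · rw [min_eq_left h3] at hmin
      exact absurd hmin h2.ne'
    · rw [min_eq_right h3] at hmin
      rw [hmin] at h1
      have hne : By.encard ≠ ⊤ := ne_top_of_lt h2
      have : By.encard < By.encard + 1 := (ENat.lt_add_one_iff hne).2 le_rfl
      exact absurd h1 (not_le.2 this)
  refine ⟨y', ?_, ?_, ?_, ?_, ?_⟩
  · intro x1 y1 x2 y2 h1 h2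
    rw [List.mem_cons] at h1 h2
    rcases h1 with h1 | h1 <;> rcases h2 with h2 | h2
    · cases h1
      cases h2
      simp
    · cases h1
      constructor
      · rintro rfl
        exact absurd h2 (hxS _)
      · rintro rfl
        exact absurd h2 (hyS _)
    · cases h2
      constructor
      · rintro rfl
        exact absurd h1 (hxS _)
      · rintro rfl
        exact absurd h1 (hyS _)
    · exact h.inj _ _ _ _ h1 h2
  · intro b hb x1 y1 x2 y2 h1 h2
    rw [List.mem_cons] at h1 h2
    rcases h1 with h1 | h1 <;> rcases h2 with h2 | h2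
    · cases h1
      cases h2
      refine iff_of_false ?_ ?_
      · intro hE
        have := (hM.par _ _ _ _ _ hx hE).1
        subst this
        exact hxS _ hxy
      · intro hE
        have := (hN.par _ _ _ _ _ hy hE).1
        subst this
        exact hyS _ hxy
    · cases h1
      refine iff_of_false ?_ ?_
      · intro hE
        obtain ⟨y'', hy''⟩ := h.clL b hb _ _ _ h2 hE
        exact hxS _ hy''
      · intro hE
        obtain ⟨x'', hx''⟩ := h.clR b hb _ _ _ h2 hE
        exact hyS _ hx''
    · cases h2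
      constructor
      · intro hE
        obtain ⟨rfl, rfl⟩ := hM.par _ _ _ _ _ hx hE
        rw [← (h.inj _ _ _ _ hxy h1).1 rfl]
        exact hy
      · intro hE
        obtain ⟨rfl, rfl⟩ := hN.par _ _ _ _ _ hy hE
        rw [← (h.inj _ _ _ _ hxy h1).2 rfl]
        exact hx
    · exact h.rel b hb _ _ _ _ h1 h2
  · intro b hb x1 y1 z h1 hE
    rw [List.mem_cons] at h1
    rcases h1 with h1 | h1
    · cases h1
      have := (hM.par _ _ _ _ _ hx hE).1
      subst this
      exact ⟨y, List.mem_cons_of_mem _ hxy⟩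
    · obtain ⟨y'', hy''⟩ := h.clL b hb _ _ _ h1 hE
      exact ⟨y'', List.mem_cons_of_mem _ hy''⟩
  · intro b hb x1 y1 z h1 hE
    rw [List.mem_cons] at h1
    rcases h1 with h1 | h1
    · cases h1
      have := (hN.par _ _ _ _ _ hy hE).1
      subst this
      exact ⟨x, List.mem_cons_of_mem _ hxy⟩
    · obtain ⟨x'', hx''⟩ := h.clR b hb _ _ _ h1 hE
      exact ⟨x'', List.mem_cons_of_mem _ hx''⟩
  · intro x1 y1 h1
    rw [List.mem_cons] at h1
    rcases h1 with h1 | h1
    · cases h1
      refine tau_extend ha.le hty ?_ ?_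
      · intro b hb z hE
        have := hM.lev _ _ _ _ _ hx hE
        omega
      · intro b hb z hE
        have := hN.lev _ _ _ _ _ hy hE
        omega
    · exact h.ty _ _ h1

/-- Every element can be added, together with its ancestors. -/
theorem Mat.reach (hM : Forest E) (hN : Forest E') (hR : Rich E' m k) (j : ℕ)
    {S : List (M × N)} (h : Mat E E' m k S) (hlen : S.length + j + 1 ≤ m) (x : M)
    (hx : ∀ a < k, ∀ z, E a z x → k ≤ a + j) :
    ∃ S', Mat E E' m k S' ∧ (∀ p ∈ S, p ∈ S') ∧ S'.length ≤ S.length + j + 1 ∧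
      ∃ y, (x, y) ∈ S' := by
  classical
  induction j generalizing x with
  | zero =>
    by_cases hxS : ∃ y, (x, y) ∈ S
    · exact ⟨S, h, fun p hp => hp, by omega, hxS⟩
    · push Not at hxS
      obtain ⟨y, hy⟩ := h.addRoot hR (fun a ha z hE => by
        have := hx a ha z hE
        omega) hxS
      exact ⟨_, hy, fun p hp => List.mem_cons_of_mem _ hp, by simp, y, by simp⟩
  | succ j ih =>
    by_cases hxS : ∃ y, (x, y) ∈ S
    · exact ⟨S, h, fun p hp => hp, by omega, hxS⟩
    · push Not at hxS
      by_cases hroot : ∀ a < k, ∀ z, ¬ E a z x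
      · obtain ⟨y, hy⟩ := h.addRoot hR hroot hxS
        exact ⟨_, hy, fun p hp => List.mem_cons_of_mem _ hp, by simp, y, by simp⟩
      · push Not at hroot
        obtain ⟨a, ha, z, hE⟩ := hroot
        have hk := hx a ha z hE
        obtain ⟨S', hS', hsub, hl, w, hw⟩ := ih (by omega) z (by
          intro b hb u hE'
          have := hM.lev _ _ _ _ _ hE' hE
          omega)
        by_cases hxS' : ∃ y, (x, y) ∈ S'
        · exact ⟨S', hS', hsub, by omega, hxS'⟩
        · push Not at hxS'
          obtain ⟨y, hy⟩ := hS'.addChild hM hN (by omega) ha hw hE hxS'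
          exact ⟨_, hy, fun p hp => List.mem_cons_of_mem _ (hsub p hp), by
            rw [List.length_cons]
            omega, y, by simp⟩

end

/-- Equality of the atomic types of two tuples, for the levels below `k`. -/
def At {M N : Type*} (E : ℕ → M → M → Prop) (E' : ℕ → N → N → Prop) (k : ℕ) {n : ℕ}
    (v : Fin n → M) (w : Fin n → N) : Prop :=
  (∀ i j, v i = v j ↔ w i = w j) ∧ ∀ a < k, ∀ i j, E a (v i) (v j) ↔ E' a (w i) (w j)

/-- Back and forth equivalence with `q` rounds. -/
def BF {M N : Type*} (E : ℕ → M → M → Prop) (E' : ℕ → N → N → Prop) (k : ℕ) :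
    ℕ → ∀ {n : ℕ}, (Fin n → M) → (Fin n → N) → Prop
  | 0, _, v, w => At E E' k v w
  | q + 1, _, v, w => BF E E' k q v w ∧
      (∀ x, ∃ y, BF E E' k q (Fin.snoc v x : Fin (_ + 1) → M) (Fin.snoc w y : Fin (_ + 1) → N)) ∧
      (∀ y, ∃ x, BF E E' k q (Fin.snoc v x : Fin (_ + 1) → M) (Fin.snoc w y : Fin (_ + 1) → N))

theorem bf_of_mat {M N : Type*} {E : ℕ → M → M → Prop} {E' : ℕ → N → N → Prop} {m k : ℕ}
    (hM : Forest E) (hN : Forest E') (hR : Rich E m k) (hR' : Rich E' m k) (q : ℕ) {n : ℕ}
    (v : Fin n → M) (w : Fin n → N) (S : List (M × N)) (hS : Mat E E' m k S)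
    (hvw : ∀ i, (v i, w i) ∈ S) (hlen : S.length + (k + 1) * q ≤ m) : BF E E' k q v w := by
  induction q generalizing n S with
  | zero =>
    exact ⟨fun i j => hS.inj _ _ _ _ (hvw i) (hvw j), fun a ha i j =>
      hS.rel a ha _ _ _ _ (hvw i) (hvw j)⟩
  | succ q ih =>
    have hlen' : S.length + k + 1 + (k + 1) * q ≤ m := by
      have : (k + 1) * (q + 1) = (k + 1) * q + (k + 1) := by ring
      omega
    refine ⟨ih v w S hS hvw (by omega), ?_, ?_⟩
    · intro x
      obtain ⟨S', hS', hsub, hl, y, hy⟩ := hS.reach hM hN hR' k (by omega) x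
        (fun a _ z _ => by omega)
      refine ⟨y, ih _ _ S' hS' ?_ (by omega)⟩
      intro i
      refine Fin.lastCases ?_ (fun i => ?_) i
      · simpa using hy
      · simpa using hsub _ (hvw i)
    · intro y
      obtain ⟨S', hS', hsub, hl, x, hx⟩ := hS.swap.reach hN hM hR k (by
        rw [List.length_map]
        omega) y (fun a _ z _ => by omega)
      rw [List.length_map] at hl
      refine ⟨x, ih _ _ (S'.map Prod.swap) hS'.swap ?_ (by
        rw [List.length_map]
        omega)⟩
      intro i
      refine Fin.lastCases ?_ (fun i => ?_) i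
      · simp only [Fin.snoc_last]
        exact mem_map_swap.2 hx
      · simp only [Fin.snoc_castSucc]
        exact mem_map_swap.2 (hsub _ (mem_map_swap.2 (hvw i)))

theorem bf_nil {M N : Type*} {E : ℕ → M → M → Prop} {E' : ℕ → N → N → Prop}
    (hM : Forest E) (hN : Forest E') (hR : ∀ m k, Rich E m k) (hR' : ∀ m k, Rich E' m k)
    (k q : ℕ) (v : Fin 0 → M) (w : Fin 0 → N) : BF E E' k q v w := by
  refine bf_of_mat (m := (k + 1) * q) hM hN (hR _ _) (hR' _ _) q v w [] ?_ (fun i => i.elim0) ?_
  · constructor <;> simp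
  · simp


/-! ### Quantifier complexity -/

open FirstOrder FirstOrder.Language

/-- `Hier true n φ` says that `φ` is a `∀ₙ`-formula, `Hier false n φ` that `φ` is an `∃ₙ`-formula:
both classes are the quantifier-free formulas for `n = 0`; a `∀ₙ₊₁`-formula is a (possibly empty)
block of universal quantifiers followed by an `∃ₙ`-formula, and dually for `∃ₙ₊₁`. -/
inductive Hier {L : FirstOrder.Language.{u, v}} {α : Type w} :
    Bool → ℕ → ∀ {l : ℕ}, L.BoundedFormula α l → Prop
  | qf (b : Bool) {l : ℕ} (φ : L.BoundedFormula α l) : φ.IsQF → Hier b 0 φ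
  | step (b : Bool) (n : ℕ) {l : ℕ} (φ : L.BoundedFormula α l) : Hier (!b) n φ → Hier b (n + 1) φ
  | all (n : ℕ) {l : ℕ} (φ : L.BoundedFormula α (l + 1)) :
      Hier true (n + 1) φ → Hier true (n + 1) φ.all
  | ex (n : ℕ) {l : ℕ} (φ : L.BoundedFormula α (l + 1)) :
      Hier false (n + 1) φ → Hier false (n + 1) φ.ex

/-- The theory `T` has an axiomatization consisting of `∀ₙ`-sentences (`b = true`), respectively of
`∃ₙ`-sentences (`b = false`). -/
def Axiomatizable {L : FirstOrder.Language.{u, v}} (b : Bool) (n : ℕ) (T : L.Theory) : Prop :=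
  ∃ Γ : L.Theory, (∀ φ ∈ Γ, Hier b n φ) ∧ (∀ φ ∈ T, Γ ⊨ᵇ φ) ∧ ∀ φ ∈ Γ, T ⊨ᵇ φ

/-- A theory is bounded if it is `∀ₙ`-axiomatizable for some `n`. -/
def Bounded {L : FirstOrder.Language.{u, v}} (T : L.Theory) : Prop := ∃ n, Axiomatizable true n T

section
variable {L : FirstOrder.Language.{u, v}} {α : Type w}

theorem isQF_foldr_sup {n : ℕ} (l : List (L.BoundedFormula α n)) (h : ∀ φ ∈ l, φ.IsQF) :
    (l.foldr (· ⊔ ·) ⊥).IsQF := by
  induction l with
  | nil => exact BoundedFormula.isQF_bot
  | cons φ l ih =>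
    exact (h φ (by simp)).sup (ih fun ψ hψ => h ψ (by simp [hψ]))

theorem isQF_foldr_inf {n : ℕ} (l : List (L.BoundedFormula α n)) (h : ∀ φ ∈ l, φ.IsQF) :
    (l.foldr (· ⊓ ·) ⊤).IsQF := by
  induction l with
  | nil => exact BoundedFormula.IsQF.top
  | cons φ l ih =>
    exact (h φ (by simp)).inf (ih fun ψ hψ => h ψ (by simp [hψ]))

theorem isQF_iSup {n : ℕ} {β : Type*} [Finite β] (f : β → L.BoundedFormula α n)
    (h : ∀ b, (f b).IsQF) : (BoundedFormula.iSup f).IsQF := by
  refine isQF_foldr_sup _ ?_
  intro φ hφ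
  simp only [List.mem_map] at hφ
  obtain ⟨b, _, rfl⟩ := hφ
  exact h b

theorem isQF_iInf {n : ℕ} {β : Type*} [Finite β] (f : β → L.BoundedFormula α n)
    (h : ∀ b, (f b).IsQF) : (BoundedFormula.iInf f).IsQF := by
  refine isQF_foldr_inf _ ?_
  intro φ hφ
  simp only [List.mem_map] at hφ
  obtain ⟨b, _, rfl⟩ := hφ
  exact h b

/-- Every property of the truth values of finitely many quantifier-free formulas is expressed by a
quantifier-free formula. -/
theorem exists_qf {n : ℕ} {I : Type} [Finite I] (f : I → L.BoundedFormula α n)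
    (hf : ∀ i, (f i).IsQF) (P : (I → Prop) → Prop) :
    ∃ ρ : L.BoundedFormula α n, ρ.IsQF ∧ ∀ (M : Type) [L.Structure M] (x : α → M)
      (v : Fin n → M), ρ.Realize x v ↔ P (fun i => (f i).Realize x v) := by
  classical
  refine ⟨BoundedFormula.iSup fun a : {a : I → Prop // P a} =>
    BoundedFormula.iInf fun i => if a.1 i then f i else (f i).not, ?_, ?_⟩
  · refine isQF_iSup _ fun a => isQF_iInf _ fun i => ?_
    split_ifs
    · exact hf i
    · exact (hf i).not
  · intro M _ x v
    rw [BoundedFormula.realize_iSup]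
    simp only [BoundedFormula.realize_iInf]
    constructor
    · rintro ⟨⟨a, ha⟩, h⟩
      have : a = fun i => (f i).Realize x v := by
        funext i
        have := h i
        simp only at this
        split_ifs at this with hi
        · exact propext ⟨fun _ => this, fun _ => hi⟩
        · rw [BoundedFormula.realize_not] at this
          exact propext ⟨fun h => absurd h hi, fun h => absurd h this⟩
      rw [← this]
      exact ha
    · intro h
      refine ⟨⟨_, h⟩, fun i => ?_⟩
      simp only
      split_ifs with hi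
      · exact hi
      · rw [BoundedFormula.realize_not]
        exact hi

/-- Universal quantification of the last `r` variables. -/
def allBlock {n : ℕ} : (r : ℕ) → L.BoundedFormula α (n + r) → L.BoundedFormula α n
  | 0, φ => φ
  | r + 1, φ => allBlock r φ.all

theorem append_snoc {M : Type*} {n r : ℕ} (v : Fin n → M) (z : Fin r → M) (b : M) :
    (Fin.append v (Fin.snoc z b : Fin (r + 1) → M) : Fin (n + (r + 1)) → M) =
      (Fin.snoc (Fin.append v z) b : Fin (n + r + 1) → M) := by
  funext i
  refine Fin.addCases (fun i => ?_) (fun i => ?_) i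
  · rw [Fin.append_left]
    have : (Fin.castAdd (r + 1) i : Fin (n + (r + 1))) = Fin.castSucc (Fin.castAdd r i) := rfl
    rw [this, Fin.snoc_castSucc, Fin.append_left]
  · rw [Fin.append_right]
    refine Fin.lastCases ?_ (fun i => ?_) i
    · have : (Fin.natAdd n (Fin.last r) : Fin (n + (r + 1))) = Fin.last (n + r) := rfl
      rw [this, Fin.snoc_last, Fin.snoc_last]
    · have : (Fin.natAdd n (Fin.castSucc i) : Fin (n + (r + 1))) =
        Fin.castSucc (Fin.natAdd n i) := rfl
      rw [this, Fin.snoc_castSucc, Fin.snoc_castSucc, Fin.append_right]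

theorem realize_allBlock {M : Type*} [L.Structure M] {n : ℕ} (r : ℕ)
    (φ : L.BoundedFormula α (n + r)) (x : α → M) (v : Fin n → M) :
    (allBlock r φ).Realize x v ↔ ∀ z : Fin r → M, φ.Realize x (Fin.append v z) := by
  induction r with
  | zero =>
    have : ∀ z : Fin 0 → M, (Fin.append v z : Fin (n + 0) → M) = v := by
      intro z
      funext i
      exact Fin.append_left v z i
    simp only [this, allBlock]
    exact ⟨fun h _ => h, fun h => h Fin.elim0⟩
  | succ r ih =>
    rw [allBlock, ih]
    constructor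
    · intro h z
      have := BoundedFormula.realize_all.1 (h (Fin.init z)) (z (Fin.last r))
      rw [← append_snoc, Fin.snoc_init_self] at this
      exact this
    · intro h z
      rw [BoundedFormula.realize_all]
      intro b
      have := h (Fin.snoc z b)
      rw [append_snoc] at this
      exact this

theorem Hier.allBlock {n k : ℕ} (r : ℕ) (φ : L.BoundedFormula α (n + r))
    (h : Hier true (k + 1) φ) : Hier true (k + 1) (allBlock r φ) := by
  induction r with
  | zero => exact h
  | succ r ih => exact ih _ (Hier.all _ _ h)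

theorem Hier.exs {n k : ℕ} (φ : L.BoundedFormula α n) (h : Hier false (k + 1) φ) :
    Hier false (k + 1) φ.exs := by
  induction n with
  | zero => exact h
  | succ n ih => exact ih _ (Hier.ex _ _ h)

end

/-! ### The language and forests as structures -/

/-- The relation symbols: one binary symbol for each level. -/
inductive Rel : ℕ → Type
  | child (a : ℕ) : Rel 2

/-- The language: no function symbols, binary relation symbols `child a` for `a : ℕ`. -/
def lang : FirstOrder.Language.{0, 0} := ⟨fun _ => Empty, Rel⟩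

/-- The relation symbol of level `a`. -/
def ch (a : ℕ) : lang.Relations 2 := Rel.child a

/-- The relation of level `a` of a structure. -/
def edge (M : Type*) [lang.Structure M] (a : ℕ) (x y : M) : Prop :=
  Structure.RelMap (ch a) ![x, y]

theorem term_eq {α : Type*} (t : lang.Term α) : ∃ i, t = Term.var i := by
  cases t with
  | var i => exact ⟨i, rfl⟩
  | func f _ => exact (f : Empty).elim

theorem bf_mono {M N : Type*} {E : ℕ → M → M → Prop} {E' : ℕ → N → N → Prop} {k k' q q' : ℕ}
    (hk : k' ≤ k) (hq : q' ≤ q) {n : ℕ} {v : Fin n → M} {w : Fin n → N}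
    (h : BF E E' k q v w) : BF E E' k' q' v w := by
  induction q generalizing n q' with
  | zero =>
    obtain rfl : q' = 0 := by omega
    exact ⟨h.1, fun a ha => h.2 a (by omega)⟩
  | succ q ih =>
    rcases Nat.lt_or_ge q q' with hlt | hge
    · obtain rfl : q' = q + 1 := by omega
      obtain ⟨h1, h2, h3⟩ := h
      refine ⟨ih le_rfl h1, fun x => ?_, fun y => ?_⟩
      · obtain ⟨y, hy⟩ := h2 x
        exact ⟨y, ih le_rfl hy⟩
      · obtain ⟨x, hx⟩ := h3 y
        exact ⟨x, ih le_rfl hx⟩
    · exact ih hge h.1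

/-- Back and forth equivalence implies equivalence for first-order formulas. -/
theorem bf_realize {n : ℕ} (φ : lang.BoundedFormula Empty n) : ∃ q k, ∀ (M N : Type)
    [lang.Structure M] [lang.Structure N] (v : Fin n → M) (w : Fin n → N),
    BF (edge M) (edge N) k q v w → (φ.Realize default v ↔ φ.Realize default w) := by
  induction φ with
  | falsum => exact ⟨0, 0, fun M N _ _ v w _ => Iff.rfl⟩
  | equal t₁ t₂ =>
    refine ⟨0, 0, fun M N _ _ v w h => ?_⟩
    obtain ⟨i, rfl⟩ := term_eq t₁
    obtain ⟨j, rfl⟩ := term_eq t₂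
    rcases i with i | i
    · exact i.elim
    rcases j with j | j
    · exact j.elim
    simpa [BoundedFormula.Realize] using h.1 i j
  | rel R ts =>
    cases R with
    | child a =>
    refine ⟨0, a + 1, fun M N _ _ v w h => ?_⟩
    obtain ⟨i, hi⟩ := term_eq (ts 0)
    obtain ⟨j, hj⟩ := term_eq (ts 1)
    rcases i with i | i
    · exact i.elim
    rcases j with j | j
    · exact j.elim
    have h1 : (fun l => (ts l).realize (Sum.elim default v)) = ![v i, v j] := by
      funext l
      fin_cases l
      · simp [hi]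
      · simp [hj]
    have h2 : (fun l => (ts l).realize (Sum.elim default w)) = ![w i, w j] := by
      funext l
      fin_cases l
      · simp [hi]
      · simp [hj]
    have := h.2 a (by omega) i j
    unfold edge at this
    simp only [BoundedFormula.Realize]
    rw [h1, h2]
    exact this
  | imp φ ψ ih1 ih2 =>
    obtain ⟨q1, k1, h1⟩ := ih1
    obtain ⟨q2, k2, h2⟩ := ih2
    refine ⟨max q1 q2, max k1 k2, fun M N _ _ v w h => ?_⟩
    rw [BoundedFormula.realize_imp, BoundedFormula.realize_imp,
      h1 M N v w (bf_mono (le_max_left _ _) (le_max_left _ _) h),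
      h2 M N v w (bf_mono (le_max_right _ _) (le_max_right _ _) h)]
  | all φ ih =>
    obtain ⟨q, k, h⟩ := ih
    refine ⟨q + 1, k, fun M N _ _ v w hb => ?_⟩
    rw [BoundedFormula.realize_all, BoundedFormula.realize_all]
    obtain ⟨_, h2, h3⟩ := hb
    constructor
    · intro hM y
      obtain ⟨x, hx⟩ := h3 y
      exact (h M N _ _ hx).1 (hM x)
    · intro hN x
      obtain ⟨y, hy⟩ := h2 x
      exact (h M N _ _ hy).2 (hN y)

/-- The `∃₂`-theory of a structure. -/
def gam (M : Type) [lang.Structure M] : lang.Theory := {φ | Hier false 2 φ ∧ M ⊨ φ}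

/-- Preservation of `∃₂`-sentences, in terms of atomic types. -/
theorem preserve (M N : Type) [lang.Structure M] [lang.Structure N] (hN : N ⊨ gam M)
    (k s r : ℕ) (c : Fin s → M) : ∃ d : Fin s → N, ∀ z' : Fin r → N, ∃ z : Fin r → M,
      At (edge M) (edge N) k (Fin.append c z) (Fin.append d z') := by
  classical
  let I : Type := (Fin (s + r) × Fin (s + r)) ⊕ (Fin k × Fin (s + r) × Fin (s + r))
  let f : I → lang.BoundedFormula Empty (s + r) := fun i =>
    match i with
    | .inl (i, j) => Term.bdEqual (Term.var (Sum.inr i)) (Term.var (Sum.inr j))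
    | .inr (a, i, j) => (ch a).boundedFormula₂ (Term.var (Sum.inr i)) (Term.var (Sum.inr j))
  have hf : ∀ i, (f i).IsQF := by
    rintro (⟨i, j⟩ | ⟨a, i, j⟩)
    · exact (BoundedFormula.IsAtomic.equal _ _).isQF
    · exact (BoundedFormula.IsAtomic.rel _ _).isQF
  have hinl : ∀ (X : Type) [lang.Structure X] (v : Fin (s + r) → X) (i j : Fin (s + r)),
      (f (.inl (i, j))).Realize default v ↔ v i = v j := by
    intro X _ v i j
    simp [f]
  have hinr : ∀ (X : Type) [lang.Structure X] (v : Fin (s + r) → X) (a : Fin k)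
      (i j : Fin (s + r)), (f (.inr (a, i, j))).Realize default v ↔ edge X a (v i) (v j) := by
    intro X _ v a i j
    simp only [f, BoundedFormula.realize_rel₂, Term.realize_var, Sum.elim_inr]
    rfl
  let P : (I → Prop) → Prop := fun t => ∃ z : Fin r → M,
    ∀ i, t i ↔ (f i).Realize default (Fin.append c z)
  obtain ⟨ρ, hρ, hρP⟩ := exists_qf f hf P
  have hM : M ⊨ (allBlock r ρ).exs := by
    unfold Sentence.Realize
    rw [Formula.Realize, ← Formula.Realize, BoundedFormula.realize_exs]
    refine ⟨c, ?_⟩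
    rw [realize_allBlock]
    intro z
    rw [hρP]
    exact ⟨z, fun i => Iff.rfl⟩
  have hH : Hier false 2 (allBlock r ρ).exs := by
    refine Hier.exs _ (Hier.step _ _ _ ?_)
    refine Hier.allBlock _ _ (Hier.step _ _ _ (Hier.qf _ _ hρ))
  have hN' : N ⊨ (allBlock r ρ).exs := hN.realize_of_mem _ ⟨hH, hM⟩
  unfold Sentence.Realize at hN'
  rw [Formula.Realize, ← Formula.Realize, BoundedFormula.realize_exs] at hN'
  obtain ⟨d, hd⟩ := hN'
  rw [realize_allBlock] at hd
  refine ⟨d, fun z' => ?_⟩
  obtain ⟨z, hz⟩ := (hρP _ _ _).1 (hd z')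
  refine ⟨z, ?_, ?_⟩
  · intro i j
    rw [← hinl M, ← hinl N]
    exact (hz (.inl (i, j))).symm
  · intro a ha i j
    rw [← hinr M _ ⟨a, ha⟩, ← hinr N _ ⟨a, ha⟩]
    exact (hz (.inr (⟨a, ha⟩, i, j))).symm


/-! ### Completeness of the `∃₂`-theory -/

/-- Models of the `∃₂`-theory of a forest are forests. -/
theorem forest_of_gam (M N : Type) [lang.Structure M] [lang.Structure N] (hN : N ⊨ gam M)
    (hM : Forest (edge M)) : Forest (edge N) := by
  have key : ∀ (k : ℕ) (x y z : N), ∃ x' y' z' : M,
      (∀ a < k, edge M a x' y' ↔ edge N a x y) ∧ (∀ a < k, edge M a x' z' ↔ edge N a x z) ∧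
      (∀ a < k, edge M a y' z' ↔ edge N a y z) ∧ (x' = y' ↔ x = y) := by
    intro k x y z
    obtain ⟨d, hd⟩ := preserve M N hN k 0 3 Fin.elim0
    obtain ⟨z', h1, h2⟩ := hd ![x, y, z]
    have e1 : ∀ i : Fin 3, (Fin.append Fin.elim0 z' : Fin (0 + 3) → M) (Fin.natAdd 0 i) = z' i :=
      fun i => Fin.append_right _ _ i
    have e2 : ∀ i : Fin 3, (Fin.append d ![x, y, z] : Fin (0 + 3) → N) (Fin.natAdd 0 i) =
      ![x, y, z] i := fun i => Fin.append_right _ _ i
    refine ⟨z' 0, z' 1, z' 2, ?_, ?_, ?_, ?_⟩
    · intro a ha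
      have := h2 a ha (Fin.natAdd 0 0) (Fin.natAdd 0 1)
      rw [e1, e1, e2, e2] at this
      exact this
    · intro a ha
      have := h2 a ha (Fin.natAdd 0 0) (Fin.natAdd 0 2)
      rw [e1, e1, e2, e2] at this
      exact this
    · intro a ha
      have := h2 a ha (Fin.natAdd 0 1) (Fin.natAdd 0 2)
      rw [e1, e1, e2, e2] at this
      exact this
    · have := h1 (Fin.natAdd 0 0) (Fin.natAdd 0 1)
      rw [e1, e1, e2, e2] at this
      exact this
  constructor
  · intro a b x y z h1 h2
    obtain ⟨x', y', z', _, h4, h5, h6⟩ := key (max a b + 1) x y z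
    have := hM.par a b x' y' z' ((h4 a (by omega)).2 h1) ((h5 b (by omega)).2 h2)
    exact ⟨h6.1 this.1, this.2⟩
  · intro a b x y z h1 h2
    obtain ⟨x', y', z', h3, _, h5, _⟩ := key (max a b + 1) x y z
    exact hM.lev a b x' y' z' ((h3 a (by omega)).2 h1) ((h5 b (by omega)).2 h2)

/-- `E` contains every finite forest as a union of components, for the levels below `K`. -/
def Emb {N : Type*} (E : ℕ → N → N → Prop) (K : ℕ) : Prop :=
  ∀ (s : ℕ) (e : ℕ → Fin s → Fin s → Prop), Forest e → ∃ f : Fin s → N, Function.Injective f ∧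
    ∀ a < K, ∀ x z', (E a (f x) z' ↔ ∃ z, f z = z' ∧ e a x z) ∧
      (E a z' (f x) ↔ ∃ z, f z = z' ∧ e a z x)

theorem emb_of_gam (M N : Type) [lang.Structure M] [lang.Structure N] (hN : N ⊨ gam M)
    (K : ℕ) (hM : Emb (edge M) K) : Emb (edge N) K := by
  intro s e he
  obtain ⟨f, hf, hcl⟩ := hM s e he
  obtain ⟨d, hd⟩ := preserve M N hN K s 1 f
  have key : ∀ z' : N, ∃ z : M, (∀ i, f i = z ↔ d i = z') ∧ (∀ i j, f i = f j ↔ d i = d j) ∧
      (∀ a < K, ∀ i, edge M a (f i) z ↔ edge N a (d i) z') ∧
      (∀ a < K, ∀ i, edge M a z (f i) ↔ edge N a z' (d i)) ∧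
      (∀ a < K, ∀ i j, edge M a (f i) (f j) ↔ edge N a (d i) (d j)) := by
    intro z'
    obtain ⟨z, h1, h2⟩ := hd ![z']
    have e1 : ∀ i, (Fin.append f z : Fin (s + 1) → M) (Fin.castAdd 1 i) = f i :=
      fun i => Fin.append_left _ _ i
    have e2 : ∀ i, (Fin.append d ![z'] : Fin (s + 1) → N) (Fin.castAdd 1 i) = d i :=
      fun i => Fin.append_left _ _ i
    have e3 : (Fin.append f z : Fin (s + 1) → M) (Fin.natAdd s 0) = z 0 :=
      Fin.append_right _ _ 0
    have e4 : (Fin.append d ![z'] : Fin (s + 1) → N) (Fin.natAdd s 0) = z' :=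
      Fin.append_right _ _ 0
    refine ⟨z 0, ?_, ?_, ?_, ?_, ?_⟩
    · intro i
      have := h1 (Fin.castAdd 1 i) (Fin.natAdd s 0)
      rw [e1, e2, e3, e4] at this
      exact this
    · intro i j
      have := h1 (Fin.castAdd 1 i) (Fin.castAdd 1 j)
      rw [e1, e1, e2, e2] at this
      exact this
    · intro a ha i
      have := h2 a ha (Fin.castAdd 1 i) (Fin.natAdd s 0)
      rw [e1, e2, e3, e4] at this
      exact this
    · intro a ha i
      have := h2 a ha (Fin.natAdd s 0) (Fin.castAdd 1 i)
      rw [e1, e2, e3, e4] at this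
      exact this
    · intro a ha i j
      have := h2 a ha (Fin.castAdd 1 i) (Fin.castAdd 1 j)
      rw [e1, e1, e2, e2] at this
      exact this
  refine ⟨d, ?_, ?_⟩
  · intro i j hij
    obtain ⟨z, _, h2, _⟩ := key (d i)
    exact hf ((h2 i j).2 hij)
  · intro a ha x z'
    obtain ⟨z, h1, h2, h3, h4, h5⟩ := key z'
    have hint : ∀ i j, edge N a (d i) (d j) ↔ e a i j := by
      intro i j
      rw [← h5 a ha i j, (hcl a ha i (f j)).1]
      constructor
      · rintro ⟨w, hw, h⟩
        rw [← hf hw]
        exact h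
      · intro h
        exact ⟨j, rfl, h⟩
    constructor
    · constructor
      · intro h
        obtain ⟨w, hw, h'⟩ := (hcl a ha x z).1.1 ((h3 a ha x).2 h)
        exact ⟨w, (h1 w).1 hw, h'⟩
      · rintro ⟨w, rfl, h⟩
        exact (hint x w).2 h
    · constructor
      · intro h
        obtain ⟨w, hw, h'⟩ := (hcl a ha x z).2.1 ((h4 a ha x).2 h)
        exact ⟨w, (h1 w).1 hw, h'⟩
      · rintro ⟨w, rfl, h⟩
        exact (hint w x).2 h

theorem rich_of_emb {N : Type*} (E : ℕ → N → N → Prop) (m k : ℕ) (hE : Emb E k) :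
    Rich E m k := by
  intro t hfin
  obtain ⟨F, hF, e, r, hfor, hlev, hroot, htau⟩ := exists_tree m k t
  set K' := hfin.toFinset.card + 1 with hK'
  -- `K'` copies of the tree
  let e2 : ℕ → Fin K' × F → Fin K' × F → Prop := fun a p q => p.1 = q.1 ∧ e a p.2 q.2
  obtain ⟨s, ⟨φ⟩⟩ := Finite.exists_equiv_fin (Fin K' × F)
  let e3 : ℕ → Fin s → Fin s → Prop := fun a x y => e2 a (φ.symm x) (φ.symm y)
  have he3 : Forest e3 := by
    constructor
    · intro a b x y z h1 h2
      have := hfor.par a b _ _ _ h1.2 h2.2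
      refine ⟨φ.symm.injective (Prod.ext (h1.1.trans h2.1.symm) this.1), this.2⟩
    · intro a b x y z h1 h2
      exact hfor.lev a b _ _ _ h1.2 h2.2
  obtain ⟨f, hf, hcl⟩ := hE s e3 he3
  have htau3 : ∀ c : Fin K', tau E m k (f (φ (c, r))) = t := by
    intro c
    rw [tau_emb m f hf k (fun a ha x z' => (hcl a ha x z').1)]
    have : tau e3 m k (φ (c, r)) = tau e m k r := by
      refine tau_emb m (fun x => φ (c, x)) ?_ k ?_ r
      · intro x y h
        exact (Prod.mk.inj (φ.injective h)).2
      · intro a ha x z'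
        constructor
        · rintro ⟨h1, h2⟩
          simp only [Equiv.symm_apply_apply] at h1 h2
          refine ⟨(φ.symm z').2, ?_, h2⟩
          rw [h1]
          exact φ.apply_symm_apply z'
        · rintro ⟨z, rfl, h⟩
          refine ⟨?_, ?_⟩
          · simp
          · simpa using h
    rw [this, htau]
  have hinj : Function.Injective (fun c : Fin K' =>
      (⟨f (φ (c, r)), by
        rw [Set.Finite.mem_toFinset]
        refine ⟨?_, htau3 c⟩
        intro a ha z hz
        obtain ⟨w, rfl, h⟩ := (hcl a ha _ z).2.1 hz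
        have h2 := h.2
        simp only [Equiv.symm_apply_apply] at h2
        exact hroot _ _ h2⟩ : {y // y ∈ hfin.toFinset})) := by
    intro c c' h
    have h1 := hf (Subtype.mk.inj h)
    exact (Prod.mk.inj (φ.injective h1)).1
  have hcard := Fintype.card_le_of_injective _ hinj
  rw [Fintype.card_fin, Fintype.card_coe] at hcard
  omega

/-- The theory of a forest containing all finite forests is axiomatized by its `∃₂`-sentences. -/
theorem axiomatizable_of_emb (M : Type) [lang.Structure M] [Nonempty M] (hM : Forest (edge M))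
    (hE : ∀ k, Emb (edge M) k) : Axiomatizable false 2 (lang.completeTheory M) := by
  refine ⟨gam M, fun φ hφ => hφ.1, ?_, ?_⟩
  · intro φ hφ
    rw [Theory.models_sentence_iff]
    intro N
    have hN : N ⊨ gam M := inferInstance
    obtain ⟨q, k, h⟩ := bf_realize φ
    have hb : BF (edge M) (edge N) k q default default :=
      bf_nil hM (forest_of_gam M N hN hM) (fun m k => rich_of_emb _ _ _ (hE k))
        (fun m k => rich_of_emb _ _ _ (emb_of_gam M N hN k (hE k))) k q _ _
    exact (h M N _ _ hb).1 hφ
  · intro φ hφ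
    exact Theory.models_sentence_of_mem hφ.2


/-! ### Alternating back and forth games -/

/-- The game for `∀ⱼ`-formulas: `S` is a finite set of pairs; the second player can answer `j` moves
of the first player, each of which picks finitely many elements, on alternating sides, beginning
with the right hand side. -/
def Alt {M : Type*} (E : ℕ → M → M → Prop) : ℕ → List (M × M) → Prop
  | 0, S => (∀ x y x' y', (x, y) ∈ S → (x', y') ∈ S → (x = x' ↔ y = y')) ∧
      ∀ a x y x' y', (x, y) ∈ S → (x', y') ∈ S → (E a x x' ↔ E a y y')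
  | j + 1, S => ∀ D : List M, ∃ S' : List (M × M), (∀ p ∈ S, p ∈ S') ∧
      (∀ d ∈ D, ∃ c, (c, d) ∈ S') ∧ Alt E j (S'.map Prod.swap)

/-- Extending a function on `Fin l` to `ℕ`. -/
noncomputable def ext {M : Type*} [Nonempty M] {l : ℕ} (w : Fin l → M) (i : ℕ) : M :=
  if h : i < l then w ⟨i, h⟩ else Classical.arbitrary M

theorem ext_fin {M : Type*} [Nonempty M] {l : ℕ} (w : Fin l → M) (i : Fin l) :
    ext w i = w i := by
  unfold ext
  rw [dif_pos i.2]

/-- Quantifier-free formulas are preserved by `Alt 0`. -/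
theorem qf_alt {M : Type} [lang.Structure M] {l : ℕ} (φ : lang.BoundedFormula (Fin 1) l)
    (hφ : φ.IsQF) {S : List (M × M)} (hS : Alt (edge M) 0 S) (x x' : Fin 1 → M)
    (hx : ∀ i, (x i, x' i) ∈ S) (v w : Fin l → M) (hv : ∀ i, (v i, w i) ∈ S) :
    φ.Realize x v ↔ φ.Realize x' w := by
  have hterm : ∀ t : lang.Term (Fin 1 ⊕ Fin l),
      (t.realize (Sum.elim x v), t.realize (Sum.elim x' w)) ∈ S := by
    intro t
    obtain ⟨i, rfl⟩ := term_eq t
    rcases i with i | i
    · exact hx i
    · exact hv i
  induction hφ with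
  | falsum => exact Iff.rfl
  | of_isAtomic h =>
    cases h with
    | equal t₁ t₂ =>
      rw [BoundedFormula.realize_bdEqual, BoundedFormula.realize_bdEqual]
      exact hS.1 _ _ _ _ (hterm t₁) (hterm t₂)
    | rel R ts =>
      cases R with
      | child a =>
      show Structure.RelMap (ch a) (fun i => (ts i).realize (Sum.elim x v)) ↔
        Structure.RelMap (ch a) (fun i => (ts i).realize (Sum.elim x' w))
      have h1 : (fun i => (ts i).realize (Sum.elim x v)) =
          ![(ts 0).realize (Sum.elim x v), (ts 1).realize (Sum.elim x v)] := by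
        funext i
        fin_cases i <;> rfl
      have h2 : (fun i => (ts i).realize (Sum.elim x' w)) =
          ![(ts 0).realize (Sum.elim x' w), (ts 1).realize (Sum.elim x' w)] := by
        funext i
        fin_cases i <;> rfl
      rw [h1, h2]
      exact hS.2 a _ _ _ _ (hterm (ts 0)) (hterm (ts 1))
  | imp _ _ ih1 ih2 =>
    rw [BoundedFormula.realize_imp, BoundedFormula.realize_imp]
    exact imp_congr ih1 ih2

/-- The transfer of a `∀ₙ`-formula (`b = true`) or of an `∃ₙ`-formula (`b = false`). -/
def Transfer {M : Type} [lang.Structure M] (b : Bool) (n : ℕ) {l : ℕ}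
    (φ : lang.BoundedFormula (Fin 1) l) : Prop :=
  ∀ (S : List (M × M)), Alt (edge M) n S → ∀ x x' : Fin 1 → M, (∀ i, (x i, x' i) ∈ S) →
    ∀ (m : ℕ) (v₀ : ℕ → M) (w : Fin l → M), (∀ i : Fin l, (i : ℕ) < m → (v₀ i, w i) ∈ S) →
      (n = 0 → l ≤ m) →
      if b then (∀ v : Fin l → M, (∀ i : Fin l, (i : ℕ) < m → v i = v₀ i) → φ.Realize x v) →
        φ.Realize x' w
      else φ.Realize x' w →
        ∃ v : Fin l → M, (∀ i : Fin l, (i : ℕ) < m → v i = v₀ i) ∧ φ.Realize x v

theorem transfer {M : Type} [lang.Structure M] [Nonempty M] {b : Bool} {n l : ℕ}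
    {φ : lang.BoundedFormula (Fin 1) l} (h : Hier b n φ) : Transfer (M := M) b n φ := by
  classical
  induction h with
  | qf b φ hφ =>
    intro S hS x x' hx m v₀ w hw hm
    have hm' := hm rfl
    have hiff := qf_alt φ hφ hS x x' hx (fun i => v₀ i) w (fun i => hw i (by omega))
    cases b
    · intro h
      exact ⟨fun i => v₀ i, fun i _ => rfl, hiff.2 h⟩
    · intro h
      exact hiff.1 (h _ fun i _ => rfl)
  | @step b n l φ hφ ih =>
    intro S hS x x' hx m v₀ w hw hm
    obtain ⟨S', hsub, hcov, hS'⟩ := hS (List.ofFn w)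
    have hcov' : ∀ i : Fin l, ∃ c, (c, w i) ∈ S' := fun i =>
      hcov (w i) (List.mem_ofFn.2 ⟨i, rfl⟩)
    choose g hg using hcov'
    let v : Fin l → M := fun i => if (i : ℕ) < m then v₀ i else g i
    have hv : ∀ i, (v i, w i) ∈ S' := by
      intro i
      by_cases hi : (i : ℕ) < m
      · simp only [v, if_pos hi]
        exact hsub _ (hw i hi)
      · simp only [v, if_neg hi]
        exact hg i
    have hv0 : ∀ i : Fin l, (i : ℕ) < m → v i = v₀ i := fun i hi => by
      simp only [v, if_pos hi]
    have key := ih (S'.map Prod.swap) hS' x' x (fun i => mem_map_swap.2 (hsub _ (hx i))) l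
      (ext w) v (fun i _ => by
        rw [ext_fin]
        exact mem_map_swap.2 (hv i)) (fun _ => le_rfl)
    cases b
    · intro h
      refine ⟨v, hv0, ?_⟩
      apply key
      intro v' hv'
      have : v' = w := by
        funext i
        rw [hv' i i.2, ext_fin]
      rw [this]
      exact h
    · intro h
      obtain ⟨v', hv', h'⟩ := key (h v hv0)
      have : v' = w := by
        funext i
        rw [hv' i i.2, ext_fin]
      rw [← this]
      exact h'
  | @all n l φ hφ ih =>
    intro S hS x x' hx m v₀ w hw hm h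
    rw [BoundedFormula.realize_all]
    intro b
    refine ih S hS x x' hx (min m l) v₀ (Fin.snoc w b) ?_ (fun h => absurd h (by omega)) ?_
    · intro i
      refine Fin.lastCases ?_ (fun i => ?_) i
      · intro hi
        simp at hi
      · intro hi
        rw [Fin.snoc_castSucc]
        exact hw i (by simpa using hi)
    · intro v' hv'
      have h1 := h (Fin.init v') (fun i hi => by
        have := hv' (Fin.castSucc i) (by
          simp only [Fin.val_castSucc]
          omega)
        simpa [Fin.init] using this)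
      have h2 := BoundedFormula.realize_all.1 h1 (v' (Fin.last l))
      rwa [Fin.snoc_init_self] at h2
  | @ex n l φ hφ ih =>
    intro S hS x x' hx m v₀ w hw hm h
    obtain ⟨b, hb⟩ := BoundedFormula.realize_ex.1 h
    obtain ⟨v', hv', h'⟩ := ih S hS x x' hx (min m l) v₀ (Fin.snoc w b) (by
      intro i
      refine Fin.lastCases ?_ (fun i => ?_) i
      · intro hi
        simp at hi
      · intro hi
        rw [Fin.snoc_castSucc]
        exact hw i (by simpa using hi)) (fun h => absurd h (by omega)) hb
    refine ⟨Fin.init v', ?_, ?_⟩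
    · intro i hi
      have := hv' (Fin.castSucc i) (by
        simp only [Fin.val_castSucc]
        omega)
      simpa [Fin.init] using this
    · refine BoundedFormula.realize_ex.2 ⟨v' (Fin.last l), ?_⟩
      rw [Fin.snoc_init_self]
      exact h'

/-- `∀ₙ`-formulas with one free variable are transferred by the game. -/
theorem transfer_all {M : Type} [lang.Structure M] [Nonempty M] {n : ℕ}
    {φ : lang.Formula (Fin 1)} (h : Hier true n φ) {a a' : M} (hA : Alt (edge M) n [(a, a')])
    (hφ : φ.Realize (fun _ => a)) : φ.Realize (fun _ => a') := by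
  refine transfer h [(a, a')] hA (fun _ => a) (fun _ => a') (fun _ => by simp) 0
    (fun _ => a) default (fun i => i.elim0) (fun _ => le_rfl) ?_
  intro v _
  rw [Subsingleton.elim v default]
  exact hφ

/-! ### Translation of sentences with constants -/

section
variable {L : FirstOrder.Language.{u, v}} {L' : FirstOrder.Language.{u, v}} {α β : Type}

theorem Hier.mapTermRel (ft : ∀ n, L.Term (α ⊕ (Fin n)) → L'.Term (β ⊕ (Fin n)))
    (fr : ∀ n, L.Relations n → L'.Relations n) {b : Bool} {n l : ℕ} {φ : L.BoundedFormula α l}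
    (h : Hier b n φ) : Hier b n (φ.mapTermRel ft fr fun _ => id) := by
  induction h with
  | qf b φ hφ =>
    refine Hier.qf _ _ ?_
    induction hφ with
    | falsum => exact BoundedFormula.IsQF.falsum
    | of_isAtomic h =>
      cases h with
      | equal t₁ t₂ => exact (BoundedFormula.IsAtomic.equal _ _).isQF
      | rel R ts => exact (BoundedFormula.IsAtomic.rel _ _).isQF
    | imp _ _ ih1 ih2 => exact ih1.imp ih2
  | step b n φ _ ih => exact Hier.step _ _ _ ih
  | all n φ _ ih => exact Hier.all _ _ ih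
  | ex n φ _ ih => exact Hier.ex _ _ ih

end

theorem Hier.equivSentence_symm {L : FirstOrder.Language.{0, 0}} {b : Bool} {n : ℕ}
    {γ : L[[Fin 1]].Sentence} (h : Hier b n γ) : Hier b n (Formula.equivSentence.symm γ) := by
  have h1 := Hier.mapTermRel (fun n => (Term.constantsVarsEquivLeft (L := L) (γ := Fin 1)
    (α := Empty) (β := Fin n))) (fun n => _root_.Equiv.sumEmpty _ _) h
  exact Hier.mapTermRel (fun n => Term.relabelEquiv
    ((Equiv.sumEmpty (Fin 1) Empty).sumCongr (_root_.Equiv.refl _))) (fun n => id) h1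


/-! ### The structure -/

/-- The kinds of nodes of the special trees. A node of kind `K (n+1) false` has children of kind
`K n true` only, a node of kind `K (n+1) true` has children of kinds `K n true` and `K n false`; a
node of kind `K 0 true` has children, a node of kind `K 0 false` has none; a node of kind `root f`
has for each `n` children of kind `K n (f n)`. -/
inductive Kind
  | leaf
  | K (n : ℕ) (b : Bool)
  | root (f : ℕ → Bool)

/-- `Ok κ κ'`: nodes of kind `κ` have children of kind `κ'`. -/
inductive Ok : Kind → Kind → Prop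
  | root (f : ℕ → Bool) (n : ℕ) : Ok (.root f) (.K n (f n))
  | same (n : ℕ) (b : Bool) : Ok (.K (n + 1) b) (.K n true)
  | other (n : ℕ) : Ok (.K (n + 1) true) (.K n false)
  | leaf : Ok (.K 0 true) .leaf

/-- The level of a child of the given kind. -/
def lev : Kind → ℕ
  | .leaf => 0
  | .K n _ => n + 1
  | .root _ => 0

/-- Nodes of the special trees: a node is the list of the steps leading to it. -/
abbrev Sp : Type := List (ℕ × Kind)

/-- The kind of a node. -/
def kindOf : Sp → Kind
  | [] => .leaf
  | p :: _ => p.2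

/-- The child relation on the special trees. -/
def sE (a : ℕ) (l l' : Sp) : Prop := ∃ c κ, l' = (c, κ) :: l ∧ Ok (kindOf l) κ ∧ a = lev κ

theorem sE_forest : Forest sE := by
  constructor
  · rintro a b x y z ⟨c, κ, rfl, _, rfl⟩ ⟨c', κ', h, _, rfl⟩
    rw [List.cons.injEq, Prod.mk.injEq] at h
    obtain ⟨⟨_, rfl⟩, rfl⟩ := h
    exact ⟨rfl, rfl⟩
  · rintro a b x y z ⟨c, κ, rfl, h, rfl⟩ ⟨c', κ', rfl, h', rfl⟩
    have h' : Ok κ κ' := h'
    generalize kindOf x = ν at h
    cases h' with
    | root f n => cases h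
    | same n b => simp [lev]
    | other n => simp [lev]
    | leaf => simp [lev]

/-- The universe: all forests on `ℕ`, and the special trees. -/
abbrev Univ : Type := ({e : ℕ → ℕ → ℕ → Prop // Forest e} × ℕ) ⊕ Sp

/-- The child relation on the universe. -/
def uE (a : ℕ) : Univ → Univ → Prop
  | .inl p, .inl q => p.1 = q.1 ∧ p.1.1 a p.2 q.2
  | .inr l, .inr l' => sE a l l'
  | _, _ => False

theorem uE_forest : Forest uE := by
  constructor
  · rintro a b (x | x) (y | y) (z | z) h1 h2
    · obtain ⟨h1, h3⟩ := h1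
      obtain ⟨h2, h4⟩ := h2
      rw [h1] at h3
      rw [h2] at h4
      have := z.1.2.par a b _ _ _ h3 h4
      refine ⟨?_, this.2⟩
      rw [Sum.inl.injEq]
      exact Prod.ext (h1.trans h2.symm) this.1
    all_goals first | exact h1.elim | exact h2.elim | skip
    have := sE_forest.par a b _ _ _ h1 h2
    exact ⟨by rw [this.1], this.2⟩
  · rintro a b (x | x) (y | y) (z | z) h1 h2
    · obtain ⟨h1, h3⟩ := h1
      obtain ⟨h2, h4⟩ := h2
      rw [h1] at h3
      exact y.1.2.lev a b _ _ _ h3 h4
    all_goals first | exact h1.elim | exact h2.elim | skip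
    exact sE_forest.lev a b _ _ _ h1 h2

instance uStr : lang.Structure Univ where
  funMap := fun f _ => (f : Empty).elim
  RelMap := fun {n} r x =>
    match n, (r : Rel n), x with
    | _, Rel.child a, x => uE a (x 0) (x 1)

theorem edge_univ : edge Univ = uE := by
  funext a x y
  rfl

theorem uE_emb (K : ℕ) : Emb uE K := by
  intro s e he
  let e' : ℕ → ℕ → ℕ → Prop := fun a x y => ∃ (hx : x < s) (hy : y < s), e a ⟨x, hx⟩ ⟨y, hy⟩
  have he' : Forest e' := by
    constructor
    · rintro a b x y z ⟨hx, hz, h1⟩ ⟨hy, _, h2⟩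
      have := he.par a b _ _ _ h1 h2
      exact ⟨congrArg Fin.val this.1, this.2⟩
    · rintro a b x y z ⟨hx, hy, h1⟩ ⟨_, hz, h2⟩
      exact he.lev a b _ _ _ h1 h2
  refine ⟨fun i => .inl (⟨e', he'⟩, i), ?_, ?_⟩
  · intro i j h
    have h' := (Prod.mk.inj (Sum.inl_injective h)).2
    exact Fin.ext h'
  · intro a _ x z'
    constructor
    · rcases z' with ⟨e1, z⟩ | l
      · constructor
        · rintro ⟨h1, ⟨hx, hz, h⟩⟩
          simp only at h1
          subst h1
          exact ⟨⟨z, hz⟩, rfl, h⟩
        · rintro ⟨z1, h1, h⟩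
          rw [Sum.inl.injEq, Prod.mk.injEq] at h1
          obtain ⟨rfl, rfl⟩ := h1
          exact ⟨rfl, x.2, z1.2, h⟩
      · constructor
        · intro h
          exact h.elim
        · rintro ⟨z1, h1, _⟩
          cases h1
    · rcases z' with ⟨e1, z⟩ | l
      · constructor
        · rintro ⟨h1, h2⟩
          simp only at h1 h2
          subst h1
          obtain ⟨hz, hx, h⟩ := h2
          exact ⟨⟨z, hz⟩, rfl, h⟩
        · rintro ⟨z1, h1, h⟩
          rw [Sum.inl.injEq, Prod.mk.injEq] at h1
          obtain ⟨rfl, rfl⟩ := h1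
          exact ⟨rfl, z1.2, x.2, h⟩
      · constructor
        · intro h
          exact h.elim
        · rintro ⟨z1, h1, _⟩
          cases h1

/-! ### The game on the special trees -/

/-- The condition on the kinds of corresponding nodes (`κ'` on the side of the first player). -/
inductive H (j : ℕ) : Kind → Kind → Prop
  | refl (κ : Kind) : H j κ κ
  | ft (n : ℕ) : j ≤ n → H j (.K n false) (.K n true)
  | tf (n : ℕ) : j + 1 ≤ n → H j (.K n true) (.K n false)
  | root (f' f : ℕ → Bool) : (∀ n, f' n = f n ∨ j + 1 ≤ n) → H j (.root f') (.root f)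

theorem H.flip {j : ℕ} {κ' κ : Kind} (h : H (j + 1) κ' κ) : H j κ κ' := by
  cases h with
  | refl => exact H.refl _
  | ft n hn => exact H.tf n hn
  | tf n hn => exact H.ft n (by omega)
  | root f' f hf =>
    refine H.root _ _ fun n => ?_
    rcases hf n with h | h
    · exact Or.inl h.symm
    · exact Or.inr (by omega)

theorem H.level {j : ℕ} {κ' κ : Kind} (h : H j κ' κ) : lev κ' = lev κ := by
  cases h <;> rfl

/-- The answer to a child. -/
theorem H.child {j : ℕ} {κ' κ ν' : Kind} (h : H j κ' κ) (hν : Ok κ' ν') :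
    ∃ ν, Ok κ ν ∧ H j ν' ν := by
  cases h with
  | refl => exact ⟨ν', hν, H.refl _⟩
  | ft n hn =>
    cases hν with
    | same n b => exact ⟨_, Ok.same n true, H.refl _⟩
  | tf n hn =>
    cases hν with
    | same n b => exact ⟨_, Ok.same n false, H.refl _⟩
    | other n => exact ⟨_, Ok.same n false, H.ft n (by omega)⟩
    | leaf => omega
  | root f' f hf =>
    cases hν with
    | root f' n =>
      refine ⟨_, Ok.root f n, ?_⟩
      rcases hf n with h | h
      · rw [h]
        exact H.refl _
      · cases h1 : f' n <;> cases h2 : f n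
        · exact H.refl _
        · exact H.ft n (by omega)
        · exact H.tf n h
        · exact H.refl _

/-- `l` is a root of the special forest. -/
def IsRoot (l : Sp) : Prop := ∀ a p, ¬ sE a p l

theorem isRoot_single (c : ℕ) (κ : Kind) : IsRoot [(c, κ)] := by
  rintro a p ⟨c', κ', h, h', _⟩
  rw [List.cons.injEq, Prod.mk.injEq] at h
  obtain ⟨_, rfl⟩ := h
  have h' : Ok .leaf κ' := h'
  cases h'

/-- The invariant of the game. -/
structure Good (j : ℕ) (S : List (Sp × Sp)) : Prop where
  inj : ∀ x y x' y', (x, y) ∈ S → (x', y') ∈ S → (x = x' ↔ y = y')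
  par : ∀ x y, (x, y) ∈ S → (IsRoot x ∧ IsRoot y) ∨ ∃ c κ p c' κ' p', x = (c, κ) :: p ∧
    y = (c', κ') :: p' ∧ Ok (kindOf p) κ ∧ Ok (kindOf p') κ' ∧ (p, p') ∈ S
  kind : ∀ x y, (x, y) ∈ S → H j (kindOf y) (kindOf x)

theorem Good.swap {j : ℕ} {S : List (Sp × Sp)} (h : Good (j + 1) S) :
    Good j (S.map Prod.swap) where
  inj x y x' y' h1 h2 := (h.inj y x y' x' (mem_map_swap.1 h1) (mem_map_swap.1 h2)).symm
  par x y h1 := by
    rcases h.par y x (mem_map_swap.1 h1) with ⟨h2, h3⟩ | ⟨c, κ, p, c', κ', p', h2, h3, h4, h5, h6⟩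
    · exact Or.inl ⟨h3, h2⟩
    · exact Or.inr ⟨c', κ', p', c, κ, p, h3, h2, h5, h4, mem_map_swap.2 h6⟩
  kind x y h1 := (h.kind y x (mem_map_swap.1 h1)).flip

theorem Good.rel {j : ℕ} {S : List (Sp × Sp)} (h : Good j S) (a : ℕ) {x y x' y' : Sp}
    (h1 : (x, y) ∈ S) (h2 : (x', y') ∈ S) : sE a x x' ↔ sE a y y' := by
  have hk := (h.kind _ _ h2).level
  rcases h.par _ _ h2 with ⟨h3, h4⟩ | ⟨c, κ, p, c', κ', p', rfl, rfl, h5, h6, h7⟩
  · exact iff_of_false (h3 _ _) (h4 _ _)
  · simp only [kindOf] at hk
    constructor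
    · rintro ⟨d, ν, he, _, rfl⟩
      rw [List.cons.injEq, Prod.mk.injEq] at he
      obtain ⟨⟨rfl, rfl⟩, rfl⟩ := he
      have := (h.inj _ _ _ _ h1 h7).1 rfl
      subst this
      exact ⟨c', κ', rfl, h6, hk.symm⟩
    · rintro ⟨d, ν, he, _, rfl⟩
      rw [List.cons.injEq, Prod.mk.injEq] at he
      obtain ⟨⟨rfl, rfl⟩, rfl⟩ := he
      have := (h.inj _ _ _ _ h1 h7).2 rfl
      subst this
      exact ⟨c, κ, rfl, h5, hk⟩

theorem exists_fresh (S : List (Sp × Sp)) (κ : Kind) (p : Sp) :
    ∃ c : ℕ, ∀ y, ((c, κ) :: p, y) ∉ S := by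
  classical
  have hfin : {c : ℕ | ∃ y, ((c, κ) :: p, y) ∈ S}.Finite := by
    refine Set.Finite.subset (((S.map fun q => (q.1.head?.getD (0, κ)).1).toFinset).finite_toSet) ?_
    rintro c ⟨y, hy⟩
    simp only [Finset.mem_coe, List.mem_toFinset, List.mem_map]
    exact ⟨_, hy, rfl⟩
  obtain ⟨c, hc⟩ := hfin.infinite_compl.nonempty
  exact ⟨c, fun y hy => hc ⟨y, hy⟩⟩

/-- Extending the invariant by one node on the side of the first player. -/
theorem Good.extend {j : ℕ} (y : Sp) : ∀ {S : List (Sp × Sp)}, Good j S →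
    ∃ S', Good j S' ∧ (∀ p ∈ S, p ∈ S') ∧ ∃ x, (x, y) ∈ S' := by
  classical
  -- adding a pair to the invariant
  have hadd : ∀ (S : List (Sp × Sp)) (x y : Sp), Good j S → (∀ z, (x, z) ∉ S) →
      (∀ z, (z, y) ∉ S) → ((IsRoot x ∧ IsRoot y) ∨ ∃ c κ p c' κ' p', x = (c, κ) :: p ∧
      y = (c', κ') :: p' ∧ Ok (kindOf p) κ ∧ Ok (kindOf p') κ' ∧ (p, p') ∈ S) →
      H j (kindOf y) (kindOf x) → Good j ((x, y) :: S) := by
    intro S x y hS hx hy hpar hk
    refine ⟨?_, ?_, ?_⟩
    · intro x1 y1 x2 y2 h1 h2
      rw [List.mem_cons] at h1 h2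
      rcases h1 with h1 | h1 <;> rcases h2 with h2 | h2
      · cases h1
        cases h2
        simp
      · cases h1
        constructor
        · rintro rfl
          exact absurd h2 (hx _)
        · rintro rfl
          exact absurd h2 (hy _)
      · cases h2
        constructor
        · rintro rfl
          exact absurd h1 (hx _)
        · rintro rfl
          exact absurd h1 (hy _)
      · exact hS.inj _ _ _ _ h1 h2
    · intro x1 y1 h1
      rw [List.mem_cons] at h1
      rcases h1 with h1 | h1
      · cases h1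
        rcases hpar with h | ⟨c, κ, p, c', κ', p', h1, h2, h3, h4, h5⟩
        · exact Or.inl h
        · exact Or.inr ⟨c, κ, p, c', κ', p', h1, h2, h3, h4, List.mem_cons_of_mem _ h5⟩
      · rcases hS.par _ _ h1 with h | ⟨c, κ, p, c', κ', p', h1, h2, h3, h4, h5⟩
        · exact Or.inl h
        · exact Or.inr ⟨c, κ, p, c', κ', p', h1, h2, h3, h4, List.mem_cons_of_mem _ h5⟩
    · intro x1 y1 h1
      rw [List.mem_cons] at h1
      rcases h1 with h1 | h1
      · cases h1
        exact hk
      · exact hS.kind _ _ h1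
  -- a root is answered by a root of the same kind
  have hroot : ∀ (S : List (Sp × Sp)) (y : Sp), Good j S → IsRoot y → (∀ z, (z, y) ∉ S) →
      ∃ S', Good j S' ∧ (∀ p ∈ S, p ∈ S') ∧ ∃ x, (x, y) ∈ S' := by
    intro S y hS hy hyS
    obtain ⟨c, hc⟩ := exists_fresh S (kindOf y) []
    refine ⟨([(c, kindOf y)], y) :: S, hadd S _ _ hS hc hyS (Or.inl ⟨isRoot_single _ _, hy⟩) ?_,
      fun p hp => List.mem_cons_of_mem _ hp, _, List.mem_cons_self⟩
    exact H.refl _
  induction y with
  | nil =>
    intro S hS
    by_cases hyS : ∃ x, (x, []) ∈ S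
    · exact ⟨S, hS, fun p hp => hp, hyS⟩
    · push Not at hyS
      refine hroot S [] hS ?_ hyS
      rintro a p ⟨c, κ, h, _⟩
      cases h
  | cons q p' ih =>
    intro S hS
    by_cases hyS : ∃ x, (x, q :: p') ∈ S
    · exact ⟨S, hS, fun p hp => hp, hyS⟩
    · push Not at hyS
      by_cases hr : IsRoot (q :: p')
      · exact hroot S _ hS hr hyS
      · obtain ⟨c', κ'⟩ := q
        unfold IsRoot at hr
        push Not at hr
        obtain ⟨a, p'', ⟨c'', κ'', he, hok, _⟩⟩ := hr
        rw [List.cons.injEq, Prod.mk.injEq] at he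
        obtain ⟨⟨rfl, rfl⟩, rfl⟩ := he
        obtain ⟨S', hS', hsub, p, hp⟩ := ih hS
        by_cases hyS' : ∃ x, (x, (c', κ') :: p') ∈ S'
        · exact ⟨S', hS', hsub, hyS'⟩
        · push Not at hyS'
          obtain ⟨κ, hκ, hH⟩ := (hS'.kind _ _ hp).child hok
          obtain ⟨c, hc⟩ := exists_fresh S' κ p
          refine ⟨((c, κ) :: p, (c', κ') :: p') :: S', hadd S' _ _ hS' hc hyS'
            (Or.inr ⟨c, κ, p, c', κ', p', rfl, rfl, hκ, hok, hp⟩) hH,
            fun r hr => List.mem_cons_of_mem _ (hsub r hr), _, List.mem_cons_self⟩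

/-- The pairs of elements of the universe represented by `S₀`. -/
def Rep (S₀ : List (Sp × Sp)) (p : Univ × Univ) : Prop :=
  (∃ z, p = (.inl z, .inl z)) ∨ ∃ x y, (x, y) ∈ S₀ ∧ p = (.inr x, .inr y)

theorem Rep.swap {S₀ : List (Sp × Sp)} {p : Univ × Univ} (h : Rep S₀ p) :
    Rep (S₀.map Prod.swap) p.swap := by
  rcases h with ⟨z, rfl⟩ | ⟨x, y, h, rfl⟩
  · exact Or.inl ⟨z, rfl⟩
  · exact Or.inr ⟨y, x, mem_map_swap.2 h, rfl⟩

theorem alt_zero {j : ℕ} {S₀ : List (Sp × Sp)} (hS₀ : Good j S₀) {S : List (Univ × Univ)}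
    (hS : ∀ p ∈ S, Rep S₀ p) : Alt (edge Univ) 0 S := by
  rw [edge_univ]
  constructor
  · intro x y x' y' h1 h2
    rcases hS _ h1 with ⟨z, hz⟩ | ⟨l, l', hl, hz⟩ <;> rcases hS _ h2 with ⟨u, hu⟩ | ⟨m, m', hm, hu⟩
    · cases hz
      cases hu
      exact Iff.rfl
    · cases hz
      cases hu
      simp
    · cases hz
      cases hu
      simp
    · cases hz
      cases hu
      rw [Sum.inr.injEq, Sum.inr.injEq]
      exact hS₀.inj _ _ _ _ hl hm
  · intro a x y x' y' h1 h2
    rcases hS _ h1 with ⟨z, hz⟩ | ⟨l, l', hl, hz⟩ <;> rcases hS _ h2 with ⟨u, hu⟩ | ⟨m, m', hm, hu⟩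
    · cases hz
      cases hu
      exact Iff.rfl
    · cases hz
      cases hu
      exact Iff.rfl
    · cases hz
      cases hu
      exact Iff.rfl
    · cases hz
      cases hu
      exact hS₀.rel a hl hm

theorem alt_succ {j : ℕ} {S₀ : List (Sp × Sp)} (hS₀ : Good j S₀) {S : List (Univ × Univ)}
    (hS : ∀ p ∈ S, Rep S₀ p) : Alt (edge Univ) (j + 1) S := by
  classical
  have hext : ∀ (j : ℕ) (S₀ : List (Sp × Sp)), Good j S₀ → ∀ D : List Univ,
      ∃ S₁ : List (Sp × Sp), Good j S₁ ∧ (∀ p ∈ S₀, p ∈ S₁) ∧ ∀ d ∈ D, ∃ c, Rep S₁ (c, d) := by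
    intro j S₀ hS₀ D
    induction D with
    | nil => exact ⟨S₀, hS₀, fun p hp => hp, by simp⟩
    | cons d D ih =>
      obtain ⟨S₁, h1, h2, h3⟩ := ih
      rcases d with z | y
      · refine ⟨S₁, h1, h2, ?_⟩
        intro d hd
        rw [List.mem_cons] at hd
        rcases hd with rfl | hd
        · exact ⟨.inl z, Or.inl ⟨z, rfl⟩⟩
        · exact h3 d hd
      · obtain ⟨S₂, h4, h5, x, hx⟩ := Good.extend y h1
        refine ⟨S₂, h4, fun p hp => h5 p (h2 p hp), ?_⟩
        intro d hd
        rw [List.mem_cons] at hd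
        rcases hd with rfl | hd
        · exact ⟨.inr x, Or.inr ⟨x, y, hx, rfl⟩⟩
        · obtain ⟨c, hc⟩ := h3 d hd
          refine ⟨c, ?_⟩
          rcases hc with ⟨z, hz⟩ | ⟨l, l', hl, hz⟩
          · exact Or.inl ⟨z, hz⟩
          · exact Or.inr ⟨l, l', h5 _ hl, hz⟩
  have hmove : ∀ (j : ℕ) (S₀ : List (Sp × Sp)), Good j S₀ → ∀ (S : List (Univ × Univ)),
      (∀ p ∈ S, Rep S₀ p) → ∀ D : List Univ, ∃ (S₁ : List (Sp × Sp)) (S' : List (Univ × Univ)),
      Good j S₁ ∧ (∀ p ∈ S, p ∈ S') ∧ (∀ d ∈ D, ∃ c, (c, d) ∈ S') ∧ ∀ p ∈ S', Rep S₁ p := by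
    intro j S₀ hS₀ S hS D
    obtain ⟨S₁, h1, h2, h3⟩ := hext j S₀ hS₀ D
    choose! g hg using h3
    refine ⟨S₁, S ++ D.map (fun d => (g d, d)), h1, fun p hp => List.mem_append_left _ hp, ?_, ?_⟩
    · intro d hd
      exact ⟨g d, List.mem_append_right _ (List.mem_map.2 ⟨d, hd, rfl⟩)⟩
    · intro p hp
      rw [List.mem_append] at hp
      rcases hp with hp | hp
      · rcases hS p hp with ⟨z, hz⟩ | ⟨l, l', hl, hz⟩
        · exact Or.inl ⟨z, hz⟩
        · exact Or.inr ⟨l, l', h2 _ hl, hz⟩
      · obtain ⟨d, hd, rfl⟩ := List.mem_map.1 hp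
        exact hg d hd
  have hrepswap : ∀ (S₁ : List (Sp × Sp)) (S' : List (Univ × Univ)), (∀ p ∈ S', Rep S₁ p) →
      ∀ p ∈ S'.map Prod.swap, Rep (S₁.map Prod.swap) p := by
    intro S₁ S' h p hp
    obtain ⟨q, hq, rfl⟩ := List.mem_map.1 hp
    exact (h q hq).swap
  induction j generalizing S₀ S with
  | zero =>
    intro D
    obtain ⟨S₁, S', h1, h2, h3, h4⟩ := hmove 0 S₀ hS₀ S hS D
    refine ⟨S', h2, h3, ?_⟩
    obtain ⟨h5, h6⟩ := alt_zero h1 h4
    constructor
    · intro x y x' y' h7 h8
      exact (h5 _ _ _ _ (mem_map_swap.1 h7) (mem_map_swap.1 h8)).symm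
    · intro a x y x' y' h7 h8
      exact (h6 a _ _ _ _ (mem_map_swap.1 h7) (mem_map_swap.1 h8)).symm
  | succ j ih =>
    intro D
    obtain ⟨S₁, S', h1, h2, h3, h4⟩ := hmove (j + 1) S₀ hS₀ S hS D
    exact ⟨S', h2, h3, ih h1.swap (hrepswap _ _ h4)⟩

/-- The root of the tree given by `f`. -/
def rt (f : ℕ → Bool) : Univ := .inr [(0, .root f)]

theorem alt_rt (n : ℕ) (f f' : ℕ → Bool) (h : ∀ i, f' i = f i ∨ n + 1 ≤ i) :
    Alt (edge Univ) n [(rt f, rt f')] := by
  have hgood : ∀ j ≤ n, Good j [([(0, Kind.root f)], [(0, Kind.root f')])] := by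
    intro j hj
    refine ⟨?_, ?_, ?_⟩
    · intro x y x' y' h1 h2
      rw [List.mem_singleton] at h1 h2
      cases h1
      cases h2
      simp
    · intro x y h1
      rw [List.mem_singleton] at h1
      cases h1
      exact Or.inl ⟨isRoot_single _ _, isRoot_single _ _⟩
    · intro x y h1
      rw [List.mem_singleton] at h1
      cases h1
      refine H.root _ _ fun i => ?_
      rcases h i with h | h
      · exact Or.inl h
      · exact Or.inr (by omega)
  have hrep : ∀ p ∈ [(rt f, rt f')], Rep [([(0, Kind.root f)], [(0, Kind.root f')])] p := by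
    intro p hp
    rw [List.mem_singleton] at hp
    subst hp
    exact Or.inr ⟨_, _, List.mem_singleton_self _, rfl⟩
  cases n with
  | zero => exact alt_zero (hgood 0 le_rfl) hrep
  | succ n => exact alt_succ (hgood n (by omega)) hrep

/-! ### The formulas distinguishing the roots -/

/-- `isT n l` says that the last variable is a node of kind `K n true` (if it is a node of kind
`K n b`). -/
def isT : ℕ → ∀ l : ℕ, lang.BoundedFormula (Fin 1) (l + 1)
  | 0, l => ((ch 0).boundedFormula₂ (Term.var (Sum.inr (Fin.castSucc (Fin.last l))))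
      (Term.var (Sum.inr (Fin.last (l + 1))))).ex
  | n + 1, l => ((ch (n + 1)).boundedFormula₂ (Term.var (Sum.inr (Fin.castSucc (Fin.last l))))
      (Term.var (Sum.inr (Fin.last (l + 1)))) ⊓ (isT n (l + 1)).not).ex

theorem realize_isT (n : ℕ) (l : ℕ) (b : Bool) (x : Fin 1 → Univ) (v : Fin (l + 1) → Univ)
    (s : Sp) (hs : kindOf s = .K n b) (hv : v (Fin.last l) = .inr s) :
    (isT n l).Realize x v ↔ b = true := by
  induction n generalizing l b s with
  | zero =>
    unfold isT
    rw [BoundedFormula.realize_ex]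
    constructor
    · rintro ⟨y, hy⟩
      rw [BoundedFormula.realize_rel₂] at hy
      simp only [Term.realize_var, Sum.elim_inr, Fin.snoc_castSucc, Fin.snoc_last] at hy
      rw [hv] at hy
      have hy : uE 0 (.inr s) y := hy
      rcases y with y | y
      · exact hy.elim
      · obtain ⟨c, κ, rfl, h1, h2⟩ := hy
        rw [hs] at h1
        cases h1
        rfl
    · rintro rfl
      refine ⟨.inr ((0, .leaf) :: s), ?_⟩
      rw [BoundedFormula.realize_rel₂]
      simp only [Term.realize_var, Sum.elim_inr, Fin.snoc_castSucc, Fin.snoc_last]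
      rw [hv]
      show uE 0 (.inr s) (.inr ((0, .leaf) :: s))
      refine ⟨0, .leaf, rfl, ?_, rfl⟩
      rw [hs]
      exact Ok.leaf
  | succ n ih =>
    unfold isT
    rw [BoundedFormula.realize_ex]
    constructor
    · rintro ⟨y, hy⟩
      rw [BoundedFormula.realize_inf, BoundedFormula.realize_rel₂,
        BoundedFormula.realize_not] at hy
      obtain ⟨hy, hy2⟩ := hy
      simp only [Term.realize_var, Sum.elim_inr, Fin.snoc_castSucc, Fin.snoc_last] at hy
      rw [hv] at hy
      have hy : uE (n + 1) (.inr s) y := hy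
      rcases y with y | y
      · exact hy.elim
      · obtain ⟨c, κ, rfl, h1, h2⟩ := hy
        rw [hs] at h1
        cases h1 with
        | same n b =>
          exact absurd ((ih (l + 1) true (Fin.snoc v _) ((c, .K n true) :: s) rfl
            (by simp)).2 rfl) hy2
        | other n => rfl
    · rintro rfl
      refine ⟨.inr ((0, .K n false) :: s), ?_⟩
      rw [BoundedFormula.realize_inf, BoundedFormula.realize_rel₂,
        BoundedFormula.realize_not]
      simp only [Term.realize_var, Sum.elim_inr, Fin.snoc_castSucc, Fin.snoc_last]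
      rw [hv]
      constructor
      · show uE (n + 1) (.inr s) (.inr ((0, .K n false) :: s))
        refine ⟨0, .K n false, rfl, ?_, rfl⟩
        rw [hs]
        exact Ok.other n
      · rw [ih (l + 1) false (Fin.snoc v _) ((0, .K n false) :: s) rfl (by simp)]
        simp

/-- The formula saying that the free variable has a child of kind `K n true`. -/
def dist (n : ℕ) : lang.Formula (Fin 1) :=
  ((ch (n + 1)).boundedFormula₂ (Term.var (Sum.inl 0)) (Term.var (Sum.inr (Fin.last 0))) ⊓
    isT n 0).ex

theorem realize_dist (n : ℕ) (f : ℕ → Bool) :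
    (dist n).Realize (fun _ => rt f) ↔ f n = true := by
  unfold dist Formula.Realize
  rw [BoundedFormula.realize_ex]
  constructor
  · rintro ⟨y, hy⟩
    rw [BoundedFormula.realize_inf, BoundedFormula.realize_rel₂] at hy
    obtain ⟨hy, hy2⟩ := hy
    simp only [Term.realize_var, Sum.elim_inl, Sum.elim_inr, Fin.snoc_last] at hy
    have hy : uE (n + 1) (rt f) y := hy
    rcases y with y | y
    · exact hy.elim
    · obtain ⟨c, κ, rfl, h1, h2⟩ := hy
      have h1 : Ok (.root f) κ := h1
      cases h1 with
      | root f m =>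
        have hm : n = m := by
          simpa [lev] using h2
        subst hm
        exact (realize_isT n 0 (f n) _ _ ((c, .K n (f n)) :: [(0, .root f)]) rfl
          (Fin.snoc_last (α := fun _ => Univ) _ _)).1 hy2
  · intro hf
    refine ⟨.inr ((0, .K n (f n)) :: [(0, .root f)]), ?_⟩
    rw [BoundedFormula.realize_inf, BoundedFormula.realize_rel₂]
    constructor
    · simp only [Term.realize_var, Sum.elim_inl, Sum.elim_inr, Fin.snoc_last]
      show uE (n + 1) (rt f) (.inr ((0, .K n (f n)) :: [(0, .root f)]))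
      exact ⟨0, .K n (f n), rfl, Ok.root f n, rfl⟩
    · exact (realize_isT n 0 (f n) _ _ ((0, .K n (f n)) :: [(0, .root f)]) rfl
        (Fin.snoc_last (α := fun _ => Univ) _ _)).2 hf

/-! ### The result -/

theorem countable_symbols : Countable lang.Symbols := by
  have h1 : Countable (Σ l, lang.Functions l) :=
    inferInstanceAs (Countable (Σ _ : ℕ, Empty))
  have h2 : Countable (Σ l, lang.Relations l) := by
    have : Function.Injective (fun r : Σ l, Rel l => match r with | ⟨_, Rel.child a⟩ => a) := by
      rintro ⟨_, ⟨a⟩⟩ ⟨_, ⟨b⟩⟩ h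
      simp only at h
      rw [h]
    exact this.countable
  exact inferInstanceAs (Countable ((Σ l, lang.Functions l) ⊕ (Σ l, lang.Relations l)))

theorem unbounded_type (f : ℕ → Bool) :
    ¬ Bounded (((lang.completeTheory Univ).typeOf (fun _ : Fin 1 => rt f)) :
      lang[[Fin 1]].Theory) := by
  rintro ⟨N, Γ, hΓ, hp, hΓp⟩
  set p := (lang.completeTheory Univ).typeOf (fun _ : Fin 1 => rt f) with hpdef
  let f' : ℕ → Bool := Function.update f (N + 1) (!(f (N + 1)))
  have hf' : ∀ i, f' i = f i ∨ N + 1 ≤ i := by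
    intro i
    by_cases hi : i = N + 1
    · right
      omega
    · left
      simp [f', Function.update_of_ne hi]
  have hf'N : f' (N + 1) = !(f (N + 1)) := by simp [f']
  -- the sentence on which the two roots differ
  obtain ⟨D, hD1, hD2⟩ : ∃ D : lang.Formula (Fin 1), D.Realize (fun _ => rt f) ∧
      ¬ D.Realize (fun _ => rt f') := by
    by_cases h : f (N + 1) = true
    · refine ⟨dist (N + 1), (realize_dist _ _).2 h, ?_⟩
      rw [realize_dist, hf'N, h]
      simp
    · refine ⟨(dist (N + 1)).not, ?_, ?_⟩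
      · rw [Formula.realize_not, realize_dist]
        exact h
      · rw [Formula.realize_not, realize_dist, hf'N, not_not]
        simpa using h
  have hmem : Formula.equivSentence D ∈ (p : lang[[Fin 1]].Theory) :=
    Theory.CompleteType.formula_mem_typeOf.2 hD1
  have hmodels := hp _ hmem
  let str : (constantsOn (Fin 1)).Structure Univ := constantsOn.structure (fun _ => rt f')
  have hM : Univ ⊨ Γ := by
    rw [Theory.model_iff]
    intro γ hγ
    have h1 : γ ∈ p := p.isMaximal.mem_of_models (hΓp γ hγ)
    rw [hpdef, Theory.CompleteType.mem_typeOf] at h1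
    have h2 := transfer_all (hΓ γ hγ).equivSentence_symm (alt_rt N f f' hf') h1
    exact (Formula.realize_equivSentence_symm _ γ _).1 h2
  exact hD2 (by
    have := Theory.ModelsBoundedFormula.realize_sentence hmodels Univ
    exact (Formula.realize_equivSentence _ D).1 this)

/-- **Q1 has a positive answer.** There are a countable relational language `L` and a complete
`L`-theory `T` that is `∃₂`-axiomatizable and has an unbounded type. -/
theorem result : ∃ (L : FirstOrder.Language.{0, 0}) (T : L.Theory), L.IsRelational ∧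
    Countable L.Symbols ∧ T.IsComplete ∧ Axiomatizable false 2 T ∧
    ∃ (m : ℕ) (p : T.CompleteType (Fin m)), ¬ Bounded (p : L[[Fin m]].Theory) := by
  refine ⟨lang, lang.completeTheory Univ, ?_, ?_, ?_, ?_, 1,
    (lang.completeTheory Univ).typeOf (fun _ : Fin 1 => rt fun _ => false),
    unbounded_type _⟩
  · intro n
    exact inferInstanceAs (IsEmpty Empty)
  · exact countable_symbols
  · exact (completeTheory.isMaximal lang Univ).isComplete
  · refine axiomatizable_of_emb Univ ?_ ?_
    · rw [edge_univ]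
      exact uE_forest
    · intro k
      rw [edge_univ]
      exact uE_emb k

end Pool.Agent.Results.MP_ba14eb_lc.UnboundedType
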